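import Pool.Agent.Y118.CM.Cx

/-!
# The middle step of the flag is Lagrangian, and there are rational structures
-/

set_option autoImplicit false
set_option maxHeartbeats 400000

open Matrix PowerSeries Pool.Agent.Y119.HY Pool.Agent.Y119.HZ

namespace Pool.Agent.Y118.CM

lemma J0_sq {n : ℕ} (hn : Even n) : J0 n * J0 n = -1 := by
  ext i j
  have hi := i.2
  have hj := j.2
  rw [J0_mul, Matrix.neg_apply, Matrix.one_apply]
  unfold J0
  rw [Matrix.of_apply]
  by_cases h : i = j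
  · rw [if_pos h, if_pos (by rw [← h]; show n - 1 - (i : ℕ) + i + 1 = n; omega), ← pow_add]
    have : (i : ℕ) + (n - 1 - i) = n - 1 := by omega
    show (-1 : ℚ) ^ ((i : ℕ) + (n - 1 - i)) = -1
    rw [this]
    refine Odd.neg_one_pow ?_
    obtain ⟨k, hk⟩ := hn
    exact ⟨k - 1, by omega⟩
  · rw [if_neg h, if_neg, mul_zero, neg_zero]
    show ¬ (n - 1 - (i : ℕ) + j + 1 = n)
    intro h2
    exact h (Fin.ext (by omega))

variable {m : ℕ} {β : Fin m → ℚ}

lemma dd_row (hQ : QD (2 * m) (QB β)) {i : ℕ} (hi : i < 2 * m) : (fun c : Fin (2 * m) => (dd β i c : ℂ)) ᵥ* cm (DN β)⁻¹ =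
    Pi.single (⟨i, hi⟩ : Fin (2 * m)) 1 := by
  have h1 : (fun c : Fin (2 * m) => (dd β i c : ℂ)) = (Pi.single (⟨i, hi⟩ : Fin (2 * m)) (1 : ℂ)) ᵥ* cm (DN β) := by
    funext c
    rw [Matrix.single_one_vecMul]
    show _ = cm (DN β) ⟨i, hi⟩ c
    rw [cm_apply]
    congr 1
    unfold dd DN
    rw [aeval_Am, Polynomial.coeff_mul_X_pow']
  have h2 : cm (DN β) * cm (DN β)⁻¹ = 1 := by rw [← cm_mul, Matrix.mul_nonsing_inv _ (DN_unit hQ), cm_one]
  rw [h1, vecMul_vecMul, h2, vecMul_one]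

lemma DN_commE (hQ : QD (2 * m) (QB β)) (s : ℂ) : cm (DN β)⁻¹ * E (cm (Am (2 * m))) s = E (cm (Am (2 * m))) s * cm (DN β)⁻¹ := by
  unfold E
  rw [Finset.sum_mul, Finset.mul_sum]
  refine Finset.sum_congr rfl fun i _ => ?_
  rw [smul_mul_assoc, mul_smul_comm]
  congr 1
  have h : Commute (cm (DN β)⁻¹) (cm (Am (2 * m))) := DN_comm hQ
  exact h.pow_right i

/-- **the first `m` rows span an isotropic subspace** -/
theorem perr_lag (hm : 1 ≤ m) (hβ : ∀ j, ∀ a : ℤ, β j ≠ a) {t : ℕ} (ht : 2 ≤ t) {i j : ℕ} (hi : i < m) (hj : j < m) :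
    (perr β t i ᵥ* cm (J0 (2 * m))) ⬝ᵥ perr β t j = 0 := by
  have hβ' : ∀ j, ∀ l : ℕ, (l : ℚ) + β j ≠ 0 ∧ (l : ℚ) + -β j ≠ 0 := by
    intro j l
    constructor
    · intro h
      apply hβ j (-(l : ℤ))
      push_cast
      linear_combination h
    · intro h
      apply hβ j (l : ℤ)
      push_cast
      linear_combination -h
  have hQ : QD (2 * m) (QB β) := QD_QB hm hβ'
  set DI := cm (DN β)⁻¹ with hDI
  set S := cm (J0 (2 * m)) with hS
  set J := cm (Jm (2 * m) (QB β)) with hJ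
  set Y := Yt (2 * m) (QB β) t with hY
  have hp : ∀ i, m + i < 2 * m → perr β t i = (fun c : Fin (2 * m) => (dd β i c : ℂ)) ᵥ* (Y * DI) := by
    intro i hi
    have h1 := perr_C hQ hi ht (1 : Matrix (Fin (2 * m)) (Fin (2 * m)) ℂ)
    rw [vecMul_one] at h1
    rw [h1]
    unfold Cc
    rw [vecMul_vecMul, Matrix.mul_one, DN_commE hQ, ← Matrix.mul_assoc]
    rfl
  have hDD : DI * cm (DN β) = 1 := by rw [hDI, ← cm_mul, Matrix.nonsing_inv_mul _ (DN_unit hQ), cm_one]
  have hDD' : cm (DN β) * DI = 1 := by rw [hDI, ← cm_mul, Matrix.mul_nonsing_inv _ (DN_unit hQ), cm_one]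
  have hSS : S * S = -1 := by
    rw [hS, ← cm_mul, J0_sq ⟨m, by ring⟩, cm_neg, cm_one]
  have hJu : IsUnit J.det := isUnit_iff_ne_zero.2 (Jc_det hQ)
  -- the inverse form
  have hform : (cm (DN β)).transpose * S * cm (DN β) = ((-1 : ℂ) ^ m) • J := form_relc
  set R := DI * S * DI.transpose with hR
  have hDT : DI.transpose * (cm (DN β)).transpose = 1 := by
    rw [← Matrix.transpose_mul, hDD', Matrix.transpose_one]
  have hRJ : R * J = (-(-1 : ℂ) ^ m) • (1 : Matrix (Fin (2 * m)) (Fin (2 * m)) ℂ) := by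
    have h1 : J = ((-1 : ℂ) ^ m) • ((cm (DN β)).transpose * S * cm (DN β)) := by
      rw [hform, smul_smul, ← mul_pow]
      norm_num
    rw [h1, mul_smul_comm, hR]
    calc (-1 : ℂ) ^ m • (DI * S * DI.transpose * ((cm (DN β)).transpose * S * cm (DN β))) =
        (-1 : ℂ) ^ m • (DI * S * (DI.transpose * (cm (DN β)).transpose) * S * cm (DN β)) := by
          simp only [Matrix.mul_assoc]
      _ = (-1 : ℂ) ^ m • (DI * (S * S) * cm (DN β)) := by
          rw [hDT, Matrix.mul_one]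
          simp only [Matrix.mul_assoc]
      _ = _ := by
          rw [hSS, Matrix.mul_neg, Matrix.mul_one, Matrix.neg_mul, hDD, smul_neg, neg_smul]
  have hR' : R = (-(-1 : ℂ) ^ m) • J⁻¹ := by
    calc R = R * (J * J⁻¹) := by rw [Matrix.mul_nonsing_inv _ hJu, Matrix.mul_one]
      _ = (R * J) * J⁻¹ := (Matrix.mul_assoc R J _).symm
      _ = _ := by rw [hRJ, smul_mul_assoc, Matrix.one_mul]
  have hYJ : Y.transpose * J * Y = J := Yt_form hQ ht
  have hYR : Y * R * Y.transpose = R := by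
    have h1 : (J⁻¹ * Y.transpose * J) * Y = 1 := by
      rw [Matrix.mul_assoc, Matrix.mul_assoc, ← Matrix.mul_assoc Y.transpose, hYJ, Matrix.nonsing_inv_mul _ hJu]
    have h2 : Y * (J⁻¹ * Y.transpose * J) = 1 := mul_eq_one_comm.1 h1
    have h3 : Y * J⁻¹ * Y.transpose = J⁻¹ := by
      calc Y * J⁻¹ * Y.transpose = (Y * (J⁻¹ * Y.transpose * J)) * J⁻¹ := by
            simp only [Matrix.mul_assoc]
            rw [Matrix.mul_nonsing_inv _ hJu, Matrix.mul_one]
        _ = _ := by rw [h2, Matrix.one_mul]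
    rw [hR', mul_smul_comm, smul_mul_assoc, h3]
  have h5 : Y * DI * S * (Y * DI).transpose = R := by
    rw [Matrix.transpose_mul, ← hYR, hR]
    simp only [Matrix.mul_assoc]
  rw [hp i (by omega), hp j (by omega), ← mulVec_transpose (Y * DI) (fun c : Fin (2 * m) => (dd β j c : ℂ)),
    Matrix.dotProduct_mulVec, vecMul_vecMul, vecMul_vecMul, ← Matrix.mul_assoc, h5, hR, ← vecMul_vecMul, ← vecMul_vecMul,
    ← Matrix.dotProduct_mulVec, mulVec_transpose, dd_row hQ (by omega), dd_row hQ (by omega), Matrix.single_one_vecMul,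
    dotProduct_single_one]
  show S ⟨i, _⟩ ⟨j, _⟩ = 0
  rw [hS, cm_apply]
  unfold J0
  rw [Matrix.of_apply, if_neg (by show ¬ (i + j + 1 = 2 * m); omega), Rat.cast_zero]

/-- **rational structures exist** -/
theorem ex_rat (n : ℕ) {s : ℂ} (hs : s ≠ 0) : ∃ C : Matrix (Fin n) (Fin n) ℂ, C.det ≠ 0 ∧
    (∃ M : Matrix (Fin n) (Fin n) ℚ, C * cm M = s • (cm (Am n) * C)) ∧
    ∃ (Q : Matrix (Fin n) (Fin n) ℚ) (κ : ℂ), C.transpose * cm (J0 n) * C = κ • cm Q := by
  refine ⟨Matrix.diagonal fun i : Fin n => (s⁻¹) ^ (i : ℕ), ?_, ⟨Am n, ?_⟩, J0 n, (s⁻¹) ^ (n - 1), ?_⟩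
  · rw [Matrix.det_diagonal]
    exact Finset.prod_ne_zero_iff.2 fun i _ => pow_ne_zero _ (inv_ne_zero hs)
  · ext i j
    rw [Matrix.diagonal_mul, Matrix.smul_apply, Matrix.mul_diagonal, smul_eq_mul, cm_apply]
    unfold Am
    rw [Matrix.of_apply]
    by_cases h : (j : ℕ) = i + 1
    · rw [if_pos h, h, pow_succ]
      push_cast
      field_simp
    · rw [if_neg h]
      push_cast
      ring
  · ext i j
    rw [Matrix.diagonal_transpose, Matrix.mul_diagonal, Matrix.diagonal_mul, Matrix.smul_apply, smul_eq_mul, cm_apply]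
    unfold J0
    rw [Matrix.of_apply]
    by_cases h : (i : ℕ) + j + 1 = n
    · rw [if_pos h]
      have : n - 1 = i + j := by omega
      rw [this, pow_add]
      ring
    · rw [if_neg h]
      push_cast
      ring

end Pool.Agent.Y118.CM
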