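import Pool.Agent.Y119.HY.Data2

/-!
# Flags which are stable under a rational matrix with separable characteristic polynomial
-/

set_option autoImplicit false
set_option maxHeartbeats 400000

open Matrix Pool.Agent.Y119.HY

namespace Pool.Agent.Y118.CM

variable {n : ℕ}

/-- the operator `z ↦ z a` -/
noncomputable def Tr (a : Matrix (Fin n) (Fin n) ℚ) : Module.End ℂ (Fin n → ℂ) := Matrix.toLin' (cm a).transpose

lemma Tr_apply (a : Matrix (Fin n) (Fin n) ℚ) (z : Fin n → ℂ) : Tr a z = z ᵥ* cm a := by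
  unfold Tr
  rw [toLin'_apply, mulVec_transpose]

lemma Tr_charpoly (a : Matrix (Fin n) (Fin n) ℚ) : (Tr a).charpoly = a.charpoly.map (algebraMap ℚ ℂ) := by
  unfold Tr
  rw [Matrix.charpoly_toLin', Matrix.charpoly_transpose]
  unfold cm
  exact Matrix.charpoly_map a (algebraMap ℚ ℂ)

/-- generalised eigenspaces have dimension at most one -/
lemma gen_le (a : Matrix (Fin n) (Fin n) ℚ) (ha : a.charpoly.Separable) (μ : ℂ) (k : ℕ) :
    Module.finrank ℂ ((Tr a).genEigenspace μ k) ≤ 1 := by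
  refine ((Tr a).finrank_genEigenspace_le μ k).trans ?_
  rw [Tr_charpoly]
  exact Polynomial.rootMultiplicity_le_one_of_separable (ha.map) μ

/-- eigenvalues are algebraic of degree at most `n` -/
lemma eig_root (a : Matrix (Fin n) (Fin n) ℚ) {μ : ℂ} {y : Fin n → ℂ} (hy : y ≠ 0) (h : y ᵥ* cm a = μ • y) :
    Polynomial.aeval μ a.charpoly = 0 := by
  have h1 : (Tr a).HasEigenvalue μ := by
    refine Module.End.hasEigenvalue_of_hasEigenvector (x := y) ⟨?_, hy⟩
    rw [Module.End.mem_genEigenspace_one, Tr_apply, h]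
  have h4 : (Tr a).charpoly.IsRoot μ := (Module.End.hasEigenvalue_iff_isRoot_charpoly (Tr a) μ).1 h1
  rw [Tr_charpoly, Polynomial.IsRoot, Polynomial.eval_map_algebraMap] at h4
  exact h4

/-- the field generated by an eigenvalue -/
lemma eig_field (a : Matrix (Fin n) (Fin n) ℚ) {μ : ℂ} {y : Fin n → ℂ} (hy : y ≠ 0) (h : y ᵥ* cm a = μ • y) :
    FiniteDimensional ℚ (IntermediateField.adjoin ℚ {μ}) ∧ Module.finrank ℚ (IntermediateField.adjoin ℚ {μ}) ≤ n := by
  have h1 := eig_root a hy h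
  have hmon := a.charpoly_monic
  have hint : IsIntegral ℚ μ := ⟨a.charpoly, hmon, h1⟩
  refine ⟨IntermediateField.adjoin.finiteDimensional hint, ?_⟩
  rw [IntermediateField.adjoin.finrank hint]
  have h3 : minpoly ℚ μ ∣ a.charpoly := minpoly.dvd ℚ μ h1
  have h4 := Polynomial.natDegree_le_of_dvd h3 hmon.ne_zero
  rwa [Matrix.charpoly_natDegree_eq_dim, Fintype.card_fin] at h4

/-- eigenvectors over a field which contains the eigenvalue -/
theorem eig_vec (a : Matrix (Fin n) (Fin n) ℚ) (ha : a.charpoly.Separable) {μ : ℂ} {y : Fin n → ℂ} (hy : y ≠ 0)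
    (h : y ᵥ* cm a = μ • y) (K : IntermediateField ℚ ℂ) (hμ : μ ∈ K) : ∃ x : Fin n → K, ∀ z : Fin n → ℂ,
    (Tr a - μ • (1 : Module.End ℂ (Fin n → ℂ))) ((Tr a - μ • (1 : Module.End ℂ (Fin n → ℂ))) z) = 0 →
    ∃ c : ℂ, z = fun i => c * (x i : ℂ) := by
  set B : Matrix (Fin n) (Fin n) K := a.map (algebraMap ℚ K) - Matrix.scalar (Fin n) (⟨μ, hμ⟩ : K) with hB
  have hBmap : B.map (algebraMap K ℂ) = cm a - Matrix.scalar (Fin n) μ := by
    rw [hB]
    ext i j
    rw [Matrix.map_apply, Matrix.sub_apply, Matrix.sub_apply, map_sub, Matrix.map_apply, cm_apply]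
    congr 1
    rw [Matrix.scalar_apply, Matrix.scalar_apply, Matrix.diagonal_apply, Matrix.diagonal_apply]
    split_ifs
    · rfl
    · exact map_zero _
  have hdet : B.det = 0 := by
    have h1 : (algebraMap K ℂ) B.det = 0 := by
      rw [RingHom.map_det, RingHom.mapMatrix_apply, hBmap]
      refine Matrix.exists_vecMul_eq_zero_iff.1 ⟨y, hy, ?_⟩
      rw [Matrix.vecMul_sub, h, Matrix.scalar_apply, ← Matrix.smul_one_eq_diagonal, Matrix.vecMul_smul, Matrix.vecMul_one, sub_self]
    exact (map_eq_zero (algebraMap K ℂ)).1 h1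
  obtain ⟨x, hx0, hx⟩ := Matrix.exists_vecMul_eq_zero_iff.2 hdet
  refine ⟨x, fun z hz => ?_⟩
  set X : Fin n → ℂ := fun i => (x i : ℂ) with hX
  have hX0 : X ≠ 0 := by
    intro h0
    apply hx0
    funext i
    have := congrFun h0 i
    exact (map_eq_zero (algebraMap K ℂ)).1 this
  have hXa : X ᵥ* (cm a - Matrix.scalar (Fin n) μ) = 0 := by
    rw [← hBmap]
    funext j
    have h1 := congrFun hx j
    have h2 : (algebraMap K ℂ) ((x ᵥ* B) j) = (X ᵥ* B.map (algebraMap K ℂ)) j := by
      show (algebraMap K ℂ) (∑ i, x i * B i j) = ∑ i, X i * B.map (algebraMap K ℂ) i j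
      rw [map_sum]
      refine Finset.sum_congr rfl fun i _ => ?_
      rw [map_mul]
      rfl
    rw [← h2, h1]
    exact map_zero _
  have hTX : (Tr a - μ • (1 : Module.End ℂ (Fin n → ℂ))) X = 0 := by
    rw [LinearMap.sub_apply, Tr_apply, LinearMap.smul_apply, Module.End.one_apply]
    rw [Matrix.vecMul_sub, Matrix.scalar_apply, ← Matrix.smul_one_eq_diagonal, Matrix.vecMul_smul, Matrix.vecMul_one] at hXa
    exact hXa
  set S := (Tr a).genEigenspace μ (2 : ℕ) with hS
  have hXS : X ∈ S := by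
    rw [hS, Module.End.mem_genEigenspace_nat, LinearMap.mem_ker, pow_two, Module.End.mul_apply, hTX, map_zero]
  have hzS : z ∈ S := by
    rw [hS, Module.End.mem_genEigenspace_nat, LinearMap.mem_ker, pow_two, Module.End.mul_apply]
    exact hz
  have hle : Submodule.span ℂ {X} ≤ S := by
    rw [Submodule.span_singleton_le_iff_mem]
    exact hXS
  have heq : Submodule.span ℂ {X} = S := by
    refine Submodule.eq_of_le_of_finrank_le hle ?_
    rw [finrank_span_singleton hX0]
    exact gen_le a ha μ 2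
  rw [← heq, Submodule.mem_span_singleton] at hzS
  obtain ⟨c, hc⟩ := hzS
  exact ⟨c, hc.symm⟩

/-- **Stable flags are defined over a number field of degree at most `n^2`.** -/
theorem cm_flag (hn : 1 ≤ n) (a : Matrix (Fin n) (Fin n) ℚ) (ha : a.charpoly.Separable) {P0 P1 : Fin n → ℂ} {c0 c1 c2 : ℂ}
    (h0 : P0 ᵥ* cm a = c0 • P0) (h1 : P1 ᵥ* cm a = c1 • P0 + c2 • P1) :
    ∃ K : IntermediateField ℚ ℂ, FiniteDimensional ℚ K ∧ Module.finrank ℚ K ≤ n ^ 2 ∧
      ∃ (x0 x1 : Fin n → K) (c c' c'' : ℂ), P0 = (fun i => c * (x0 i : ℂ)) ∧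
        P1 = fun i => c' * (x0 i : ℂ) + c'' * (x1 i : ℂ) := by
  have hn2 : n ≤ n ^ 2 := by rw [pow_two]; exact Nat.le_mul_self n
  -- eigenvectors are killed
  have hk : ∀ {μ : ℂ} {z : Fin n → ℂ}, z ᵥ* cm a = μ • z →
      (Tr a - μ • (1 : Module.End ℂ (Fin n → ℂ))) ((Tr a - μ • (1 : Module.End ℂ (Fin n → ℂ))) z) = 0 := by
    intro μ z hz
    have : (Tr a - μ • (1 : Module.End ℂ (Fin n → ℂ))) z = 0 := by
      rw [LinearMap.sub_apply, Tr_apply, LinearMap.smul_apply, Module.End.one_apply, hz, sub_self]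
    rw [this, map_zero]
  by_cases hP0 : P0 = 0
  · by_cases hP1 : P1 = 0
    · refine ⟨⊥, inferInstance, ?_, fun _ => 0, fun _ => 0, 0, 0, 0, ?_, ?_⟩
      · rw [IntermediateField.finrank_bot]
        exact hn.trans hn2
      · rw [hP0]
        funext i
        simp
      · rw [hP1]
        funext i
        simp
    · have h2 : P1 ᵥ* cm a = c2 • P1 := by rw [h1, hP0, smul_zero, zero_add]
      obtain ⟨hf, hd⟩ := eig_field a hP1 h2
      obtain ⟨x, hx⟩ := eig_vec a ha hP1 h2 (IntermediateField.adjoin ℚ {c2}) (IntermediateField.mem_adjoin_simple_self ℚ c2)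
      obtain ⟨c, hc⟩ := hx P1 (hk h2)
      refine ⟨_, hf, hd.trans hn2, fun _ => 0, x, 0, 0, c, ?_, ?_⟩
      · rw [hP0]
        funext i
        simp
      · rw [hc]
        funext i
        simp
  · obtain ⟨hf, hd⟩ := eig_field a hP0 h0
    by_cases hc : c2 = c0
    · obtain ⟨x, hx⟩ := eig_vec a ha hP0 h0 (IntermediateField.adjoin ℚ {c0}) (IntermediateField.mem_adjoin_simple_self ℚ c0)
      obtain ⟨c, hc'⟩ := hx P0 (hk h0)
      have h3 : (Tr a - c0 • (1 : Module.End ℂ (Fin n → ℂ))) P1 = c1 • P0 := by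
        rw [LinearMap.sub_apply, Tr_apply, LinearMap.smul_apply, Module.End.one_apply, h1, hc, add_sub_cancel_right]
      obtain ⟨c', hc''⟩ := hx P1 (by
        rw [h3, map_smul, LinearMap.sub_apply, Tr_apply, LinearMap.smul_apply, Module.End.one_apply, h0, sub_self, smul_zero])
      refine ⟨_, hf, hd.trans hn2, x, fun _ => 0, c, c', 0, hc', ?_⟩
      rw [hc'']
      funext i
      simp
    · have hcc : c2 - c0 ≠ 0 := sub_ne_zero.2 hc
      set ν := c1 / (c2 - c0) with hν
      set y := P1 + ν • P0 with hy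
      have hy2 : y ᵥ* cm a = c2 • y := by
        rw [hy, Matrix.add_vecMul, Matrix.smul_vecMul, h0, h1, smul_add, smul_smul, smul_smul]
        have e : c1 + ν * c0 = c2 * ν := by
          rw [hν]
          field_simp
          ring
        rw [← e, add_smul]
        abel
      have hP1 : P1 = y - ν • P0 := by rw [hy]; abel
      by_cases hy0 : y = 0
      · obtain ⟨x, hx⟩ := eig_vec a ha hP0 h0 (IntermediateField.adjoin ℚ {c0})
          (IntermediateField.mem_adjoin_simple_self ℚ c0)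
        obtain ⟨c, hc'⟩ := hx P0 (hk h0)
        refine ⟨_, hf, hd.trans hn2, x, fun _ => 0, c, -(ν * c), 0, hc', ?_⟩
        rw [hP1, hy0, hc']
        funext i
        show 0 - ν * (c * (x i : ℂ)) = _
        ring
      · obtain ⟨hf', hd'⟩ := eig_field a hy0 hy2
        obtain ⟨x, hx⟩ := eig_vec a ha hP0 h0 (IntermediateField.adjoin ℚ {c0} ⊔ IntermediateField.adjoin ℚ {c2})
          ((le_sup_left : IntermediateField.adjoin ℚ {c0} ≤ _) (IntermediateField.mem_adjoin_simple_self ℚ c0))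
        obtain ⟨x', hx'⟩ := eig_vec a ha hy0 hy2 (IntermediateField.adjoin ℚ {c0} ⊔ IntermediateField.adjoin ℚ {c2})
          ((le_sup_right : IntermediateField.adjoin ℚ {c2} ≤ _) (IntermediateField.mem_adjoin_simple_self ℚ c2))
        obtain ⟨c, hc'⟩ := hx P0 (hk h0)
        obtain ⟨c', hc''⟩ := hx' y (hk hy2)
        refine ⟨_, IntermediateField.finiteDimensional_sup _ _, ?_, x, x', c, -(ν * c), c', hc', ?_⟩
        · refine (IntermediateField.finrank_sup_le _ _).trans ?_
          rw [pow_two]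
          exact Nat.mul_le_mul hd hd'
        · rw [hP1]
          funext i
          show y i - ν * P0 i = _
          rw [hc'', hc']
          ring

end Pool.Agent.Y118.CM
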