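import Pool.Agent.Y118.CM.Nf
import Pool.Agent.Y118.CM.Fl

/-!
# Main statement for matrices of arbitrary even size
-/

set_option autoImplicit false
set_option maxHeartbeats 400000

open Matrix PowerSeries Pool.Agent.Y113 Pool.Agent.Y120.GF Pool.Agent.Y120.GH Pool.Agent.Y119.HY Pool.Agent.Y119.HZ

namespace Pool.Agent.Y118.CM

theorem main_n {n : ℕ} {Q : Polynomial ℚ} (hQ : QD n Q) (hn : 4 ≤ n) (hH : ∀ i j, SDc (Hp n Q i j)) {d d' : ℕ → ℚ}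
    (h0 : d 0 ≠ 0) (h1 : d' 0 = 0) (h2 : d' 1 = d 0) (h3 : d' 2 = d 1)
    (h4 : Q.coeff 0 * (2 * d 0 * d 2 - d 1 ^ 2) = Q.coeff 2 * d 0 ^ 2) (D : ℕ) : ∃ t0 : ℕ, ∀ t : ℕ, t0 ≤ t →
    ∀ K : IntermediateField ℚ ℂ, FiniteDimensional ℚ K → Module.finrank ℚ K ≤ D →
    ∀ (C : Matrix (Fin n) (Fin n) ℂ) (M Qb : Matrix (Fin n) (Fin n) ℚ) (s κ : ℂ), C.det ≠ 0 → s ≠ 0 →
    C * cm M = s • (cm (Am n) * C) → C.transpose * cm (Jm n Q) * C = κ • cm Qb →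
    ∀ (x0 x1 : Fin n → K) (c c' c'' : ℂ),
    ((fun k : Fin n => (d k : ℂ)) ᵥ* Hf (Hc n Q) (((1 / (t : ℝ) : ℝ)) : ℂ)) ᵥ* C = (fun i => c * (x0 i : ℂ)) →
    ((fun k : Fin n => (d' k : ℂ)) ᵥ* Hf (Hc n Q) (((1 / (t : ℝ) : ℝ)) : ℂ)) ᵥ* C =
      (fun i => c' * (x0 i : ℂ) + c'' * (x1 i : ℂ)) → False := by
  obtain ⟨p, rfl⟩ : ∃ p, n = p + 4 := ⟨n - 4, by omega⟩
  have hQ0 : Q.coeff 0 ≠ 0 := by
    have := hQ.ne 0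
    rwa [Nat.cast_zero, ← Polynomial.coeff_zero_eq_eval_zero] at this
  have hQ1 : Q.coeff 1 = 0 := hQ.sym 1 odd_one
  obtain ⟨t0, ht0⟩ := no_flag hQ hH (d := fun k : Fin (p + 4) => d k) (d' := fun k : Fin (p + 4) => d' k) h0 h1 h2 h3 h4 D
  refine ⟨t0, fun t ht K hK hKD C M Qb s κ hC hs hM hP x0 x1 c c' c'' e0 e1 => ?_⟩
  have h := flag_inv hQ0 hQ1 K hC hs hM hP e0 e1
  rcases h with h | h | h | ⟨β, h⟩
  · exact ht0 t ht K hK hKD 0 (Or.inl h)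
  · exact ht0 t ht K hK hKD 0 (Or.inr (Or.inl h))
  · exact ht0 t ht K hK hKD 0 (Or.inr (Or.inr (Or.inl h)))
  · exact ht0 t ht K hK hKD β (Or.inr (Or.inr (Or.inr h)))

end Pool.Agent.Y118.CM
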