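import Pool.Agent.Y118.CM.Cx
import Pool.Agent.Y118.CM.Mn

/-!
# The final statements about the period rows of the Calabi–Yau operator
-/

set_option autoImplicit false
set_option maxHeartbeats 400000

open Matrix PowerSeries Pool.Agent.Y119.HY Pool.Agent.Y119.HZ

namespace Pool.Agent.Y118.CM

variable {m : ℕ} {β : Fin m → ℚ}

/-- **no Hodge flags over number fields of bounded degree** -/
theorem no_flag_cy (hm : 2 ≤ m) (hβ : ∀ j, ∀ a : ℤ, β j ≠ a) (D : ℕ) : ∃ t0 : ℕ, 2 ≤ t0 ∧ ∀ t : ℕ, t0 ≤ t →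
    ∀ K : IntermediateField ℚ ℂ, FiniteDimensional ℚ K → Module.finrank ℚ K ≤ D →
    ∀ (C : Matrix (Fin (2 * m)) (Fin (2 * m)) ℂ) (M Qb : Matrix (Fin (2 * m)) (Fin (2 * m)) ℚ) (s κ : ℂ), C.det ≠ 0 → s ≠ 0 →
    C * cm M = s • (cm (Am (2 * m)) * C) → C.transpose * cm (J0 (2 * m)) * C = κ • cm Qb →
    ∀ (x0 x1 : Fin (2 * m) → K) (c c' c'' : ℂ),
    perr β t 0 ᵥ* C = (fun i => c * (x0 i : ℂ)) →
    perr β t 1 ᵥ* C = (fun i => c' * (x0 i : ℂ) + c'' * (x1 i : ℂ)) → False := by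
  have hβ' : ∀ j, ∀ l : ℕ, (l : ℚ) + β j ≠ 0 ∧ (l : ℚ) + -β j ≠ 0 := by
    intro j l
    constructor
    · intro h
      apply hβ j (-(l : ℤ))
      push_cast
      linear_combination h
    · intro h
      apply hβ j (l : ℤ)
      push_cast
      linear_combination -h
  have hQ : QD (2 * m) (QB β) := QD_QB (by omega) hβ'
  have hne : ∀ j, β j ≠ 0 := fun j h => hβ j 0 (by rw [h]; simp)
  obtain ⟨t0, ht0⟩ := main_n hQ (by omega) (fun i j => sdc_hps hβ' hQ i j) (d := dd β 0) (d' := dd β 1) (dd_ne hne) dd_zero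
    (dd_succ 0) (dd_succ 1) dd_quad D
  refine ⟨max t0 2, le_max_right _ _, fun t ht K hK hKD C M Qb s κ hC hs hM hP x0 x1 c c' c'' e0 e1 => ?_⟩
  have ht2 : 2 ≤ t := (le_max_right _ _).trans ht
  rw [perr_C hQ (by omega) ht2] at e0 e1
  exact ht0 t ((le_max_left _ _).trans ht) K hK hKD (Cc β t C) M Qb s ((-1) ^ m * κ) (Cc_det hQ t hC) hs (Cc_mon hQ t hM)
    (Cc_pol hQ t hP) x0 x1 c c' c'' e0 e1

end Pool.Agent.Y118.CM
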