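import Pool.Agent.Y119.HY.Data2

/-!
# Algebra of Hodge flags near a point with maximally unipotent monodromy
-/

set_option autoImplicit false
set_option maxHeartbeats 400000

open Matrix Pool.Agent.Y119.HY

namespace Pool.Agent.Y118.CM

/-- extension by zero -/
noncomputable def ex {n : ℕ} (v : Fin n → ℂ) (i : ℕ) : ℂ := if h : i < n then v ⟨i, h⟩ else 0

lemma ex_val {n : ℕ} (v : Fin n → ℂ) (i : Fin n) : ex v i = v i := by
  unfold ex
  rw [dif_pos i.2]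

lemma ex_big {n : ℕ} (v : Fin n → ℂ) {i : ℕ} (h : n ≤ i) : ex v i = 0 := by
  unfold ex
  rw [dif_neg (by omega)]

lemma sum_ex {n : ℕ} (v : Fin n → ℂ) (f : ℕ → ℂ) : ∑ i : Fin n, v i * f i = ∑ i ∈ Finset.range n, ex v i * f i := by
  rw [Finset.sum_range]
  exact Finset.sum_congr rfl fun i _ => by rw [ex_val]

lemma Am_pow_ex {n : ℕ} (k : ℕ) (v : Fin n → ℂ) (i : Fin n) : (cm (Am n) ^ k *ᵥ v) i = ex v (i + k) := by
  rw [← cm_pow]
  show ∑ j, cm (Am n ^ k) i j * v j = _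
  by_cases h : (i : ℕ) + k < n
  · rw [Finset.sum_eq_single (⟨i + k, h⟩ : Fin n)]
    · rw [cm_apply, Am_pow, if_pos rfl, Rat.cast_one, one_mul]
      unfold ex
      rw [dif_pos h]
    · intro j _ hj
      rw [cm_apply, Am_pow, if_neg (fun h2 => hj (Fin.ext h2)), Rat.cast_zero, zero_mul]
    · intro h2
      exact absurd (Finset.mem_univ _) h2
  · rw [ex_big v (by omega)]
    refine Finset.sum_eq_zero fun j _ => ?_
    rw [cm_apply, Am_pow, if_neg (by have := j.2; omega), Rat.cast_zero, zero_mul]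

/-- the pairing of a row with `N^k v` -/
lemma dot_pow {n : ℕ} (R v : Fin n → ℂ) (k : ℕ) : R ⬝ᵥ (cm (Am n) ^ k *ᵥ v) = ∑ i ∈ Finset.range (n - k), ex R i * ex v (i + k) := by
  show ∑ i, R i * (cm (Am n) ^ k *ᵥ v) i = _
  simp only [Am_pow_ex]
  rw [sum_ex R fun i => ex v (i + k)]
  symm
  refine Finset.sum_subset (Finset.range_mono (by omega)) fun i _ hi => ?_
  rw [ex_big v (by rw [Finset.mem_range] at hi; omega), mul_zero]

section
variable {n : ℕ} {Q : Polynomial ℚ}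

/-- iterates -/
lemma C_pow {C : Matrix (Fin n) (Fin n) ℂ} {M : Matrix (Fin n) (Fin n) ℚ} {s : ℂ}
    (hM : C * cm M = s • (cm (Am n) * C)) (k : ℕ) : C * cm M ^ k = s ^ k • (cm (Am n) ^ k * C) := by
  induction k with
  | zero => simp
  | succ k ih =>
    rw [pow_succ, ← Matrix.mul_assoc, ih, Matrix.smul_mul, Matrix.mul_assoc, hM, Matrix.mul_smul, smul_smul, ← Matrix.mul_assoc,
      ← pow_succ, ← pow_succ]

/-- a cyclic standard vector -/
lemma exists_e {C : Matrix (Fin n) (Fin n) ℂ} (hC : C.det ≠ 0) (hn : 1 ≤ n) :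
    ∃ e : Fin n → ℚ, ex (C *ᵥ fun i => (e i : ℂ)) (n - 1) ≠ 0 := by
  by_contra hcon
  push Not at hcon
  have h1 : ∀ j, C ⟨n - 1, by omega⟩ j = 0 := by
    intro j
    have h2 := hcon (Pi.single j 1)
    unfold ex at h2
    rw [dif_pos (by omega)] at h2
    have h3 : (fun i => ((Pi.single j 1 : Fin n → ℚ) i : ℂ)) = Pi.single j 1 := by
      funext i
      by_cases h : i = j
      · subst h
        simp
      · simp [h]
    rw [h3, Matrix.mulVec_single_one] at h2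
    exact h2
  exact hC (Matrix.det_eq_zero_of_row_eq_zero _ h1)

/-- the values of a row on the vectors `M^k e` -/
lemma row_val {C : Matrix (Fin n) (Fin n) ℂ} {M : Matrix (Fin n) (Fin n) ℚ} {s : ℂ}
    (hM : C * cm M = s • (cm (Am n) * C)) (R : Fin n → ℂ) (e : Fin n → ℚ) (k : ℕ) :
    (R ᵥ* C) ⬝ᵥ (fun i => (((M ^ k) *ᵥ e) i : ℂ)) =
      s ^ k * ∑ i ∈ Finset.range (n - k), ex R i * ex (C *ᵥ fun i => (e i : ℂ)) (i + k) := by
  have h1 : (fun i => (((M ^ k) *ᵥ e) i : ℂ)) = (cm M ^ k) *ᵥ (fun i => (e i : ℂ)) := by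
    funext i
    rw [← cm_pow]
    show ((∑ j, (M ^ k) i j * e j : ℚ) : ℂ) = ∑ j, cm (M ^ k) i j * (e j : ℂ)
    push_cast
    rfl
  rw [h1, ← dotProduct_mulVec, mulVec_mulVec, C_pow hM, Matrix.smul_mulVec, dotProduct_smul, ← mulVec_mulVec, dot_pow,
    smul_eq_mul]

/-- entries of the form -/
lemma J_pair (v w : Fin n → ℂ) : v ⬝ᵥ (cm (Jm n Q) *ᵥ w) =
    ∑ i ∈ Finset.range n, ∑ j ∈ Finset.range n,
      if n ≤ i + j + 1 then ex v i * ((-1) ^ i * (Q.coeff (i + j + 1 - n) : ℂ)) * ex w j else 0 := by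
  show ∑ i, v i * ∑ j, cm (Jm n Q) i j * w j = _
  have h1 : ∀ i : Fin n, ∑ j, cm (Jm n Q) i j * w j = ∑ j ∈ Finset.range n,
      (if n ≤ (i : ℕ) + j + 1 then ((-1) ^ (i : ℕ) * (Q.coeff (i + j + 1 - n) : ℂ)) else 0) * ex w j := by
    intro i
    rw [Finset.sum_range]
    refine Finset.sum_congr rfl fun j _ => ?_
    rw [ex_val, cm_apply]
    unfold Jm
    rw [Matrix.of_apply]
    split_ifs <;> simp
  simp only [h1]
  rw [sum_ex v fun i => ∑ j ∈ Finset.range n,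
      (if n ≤ i + j + 1 then ((-1) ^ i * (Q.coeff (i + j + 1 - n) : ℂ)) else 0) * ex w j]
  refine Finset.sum_congr rfl fun i _ => ?_
  rw [Finset.mul_sum]
  refine Finset.sum_congr rfl fun j _ => ?_
  split_ifs <;> ring

lemma J_top {p : ℕ} {Q : Polynomial ℚ} (v : Fin (p + 4) → ℂ) :
    v ⬝ᵥ (cm (Jm (p + 4) Q) *ᵥ (cm (Am (p + 4)) ^ (p + 3) *ᵥ v)) = (-1) ^ (p + 3) * (Q.coeff 0 : ℂ) * ex v (p + 3) ^ 2 := by
  rw [J_pair]
  have h1 : ∀ j, ex (cm (Am (p + 4)) ^ (p + 3) *ᵥ v) j = if j < p + 4 then ex v (j + (p + 3)) else 0 := by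
    intro j
    by_cases h : j < p + 4
    · rw [if_pos h]
      conv_lhs => unfold ex
      rw [dif_pos h, Am_pow_ex]
    · rw [if_neg h, ex_big _ (by omega)]
  rw [Finset.sum_comm, Finset.sum_eq_single 0]
  · rw [Finset.sum_eq_single (p + 3)]
    · rw [if_pos (by omega), h1, if_pos (by omega)]
      have e1 : p + 3 + 0 + 1 - (p + 4) = 0 := by omega
      rw [e1, Nat.zero_add]
      ring
    · intro i hi hi2
      rw [Finset.mem_range] at hi
      rw [if_neg (by omega)]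
    · intro h
      exact absurd (Finset.mem_range.2 (by omega)) h
  · intro j _ hj
    refine Finset.sum_eq_zero fun i _ => ?_
    rw [h1]
    split_ifs
    · rw [ex_big v (i := j + (p + 3)) (by omega), mul_zero]
    · rw [mul_zero]
    · rfl
  · intro h
    exact absurd (Finset.mem_range.2 (by omega)) h

lemma J_sec {p : ℕ} {Q : Polynomial ℚ} (h1 : Q.coeff 1 = 0) (v : Fin (p + 4) → ℂ) :
    v ⬝ᵥ (cm (Jm (p + 4) Q) *ᵥ (cm (Am (p + 4)) ^ (p + 1) *ᵥ v)) = (-1) ^ (p + 3) *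
      ((Q.coeff 0 : ℂ) * (2 * ex v (p + 3) * ex v (p + 1) - ex v (p + 2) ^ 2) + (Q.coeff 2 : ℂ) * ex v (p + 3) ^ 2) := by
  rw [J_pair]
  have h2 : ∀ j, ex (cm (Am (p + 4)) ^ (p + 1) *ᵥ v) j = if j < p + 4 then ex v (j + (p + 1)) else 0 := by
    intro j
    by_cases h : j < p + 4
    · rw [if_pos h]
      conv_lhs => unfold ex
      rw [dif_pos h, Am_pow_ex]
    · rw [if_neg h, ex_big _ (by omega)]
  have h3 : ∀ j ∈ Finset.range (p + 4), j ∉ Finset.range 3 → ∑ i ∈ Finset.range (p + 4),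
      (if p + 4 ≤ i + j + 1 then ex v i * ((-1) ^ i * (Q.coeff (i + j + 1 - (p + 4)) : ℂ)) *
        ex (cm (Am (p + 4)) ^ (p + 1) *ᵥ v) j else 0) = 0 := by
    intro j _ hj
    rw [Finset.mem_range] at hj
    refine Finset.sum_eq_zero fun i _ => ?_
    rw [h2]
    split_ifs
    · rw [ex_big v (i := j + (p + 1)) (by omega), mul_zero]
    · rw [mul_zero]
    · rfl
  rw [Finset.sum_comm, ← Finset.sum_subset (Finset.range_mono (show 3 ≤ p + 4 by omega)) h3]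
  have h4 : ∀ j < 3, ∑ i ∈ Finset.range (p + 4),
      (if p + 4 ≤ i + j + 1 then ex v i * ((-1) ^ i * (Q.coeff (i + j + 1 - (p + 4)) : ℂ)) *
        ex (cm (Am (p + 4)) ^ (p + 1) *ᵥ v) j else 0) =
      (if p + 4 ≤ p + 1 + j + 1 then ex v (p + 1) * ((-1) ^ (p + 1) * (Q.coeff (p + 1 + j + 1 - (p + 4)) : ℂ)) *
        ex v (j + (p + 1)) else 0) +
      (if p + 4 ≤ p + 2 + j + 1 then ex v (p + 2) * ((-1) ^ (p + 2) * (Q.coeff (p + 2 + j + 1 - (p + 4)) : ℂ)) *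
        ex v (j + (p + 1)) else 0) +
      (if p + 4 ≤ p + 3 + j + 1 then ex v (p + 3) * ((-1) ^ (p + 3) * (Q.coeff (p + 3 + j + 1 - (p + 4)) : ℂ)) *
        ex v (j + (p + 1)) else 0) := by
    intro j hj
    rw [h2, if_pos (by omega), Finset.sum_range_succ, Finset.sum_range_succ, Finset.sum_range_succ,
      Finset.sum_eq_zero fun i hi => if_neg (by rw [Finset.mem_range] at hi; omega), zero_add]
  rw [Finset.sum_range_succ, Finset.sum_range_succ, Finset.sum_range_one, h4 0 (by omega), h4 1 (by omega), h4 2 (by omega)]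
  have c0 : p + 3 + 0 + 1 - (p + 4) = 0 := by omega
  have c1 : p + 2 + 1 + 1 - (p + 4) = 0 := by omega
  have c2 : p + 3 + 1 + 1 - (p + 4) = 1 := by omega
  have c3 : p + 1 + 2 + 1 - (p + 4) = 0 := by omega
  have c4 : p + 2 + 2 + 1 - (p + 4) = 1 := by omega
  have c5 : p + 3 + 2 + 1 - (p + 4) = 2 := by omega
  have d0 : (0 : ℕ) + (p + 1) = p + 1 := by omega
  have d1 : 1 + (p + 1) = p + 2 := by omega
  have d2 : 2 + (p + 1) = p + 3 := by omega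
  rw [if_neg (by omega), if_neg (by omega), if_pos (by omega), if_neg (by omega), if_pos (by omega), if_pos (by omega),
    if_pos (by omega), if_pos (by omega), if_pos (by omega)]
  simp only [c0, c1, c2, c3, c4, c5, d0, d1, d2, h1]
  push_cast
  ring

/-- the pairing of basis vectors -/
lemma pol_pair {C : Matrix (Fin n) (Fin n) ℂ} {M Qb : Matrix (Fin n) (Fin n) ℚ} {s κ : ℂ}
    (hM : C * cm M = s • (cm (Am n) * C)) (hP : C.transpose * cm (Jm n Q) * C = κ • cm Qb) (e : Fin n → ℚ) (k : ℕ) :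
    κ * ((e ⬝ᵥ (Qb *ᵥ ((M ^ k) *ᵥ e)) : ℚ) : ℂ) =
      s ^ k * ((C *ᵥ fun i => (e i : ℂ)) ⬝ᵥ (cm (Jm n Q) *ᵥ (cm (Am n) ^ k *ᵥ (C *ᵥ fun i => (e i : ℂ))))) := by
  have h1 : (fun i => (((M ^ k) *ᵥ e) i : ℂ)) = (cm M ^ k) *ᵥ (fun i => (e i : ℂ)) := by
    funext i
    rw [← cm_pow]
    show ((∑ j, (M ^ k) i j * e j : ℚ) : ℂ) = ∑ j, cm (M ^ k) i j * (e j : ℂ)
    push_cast
    rfl
  have h2 : ((e ⬝ᵥ (Qb *ᵥ ((M ^ k) *ᵥ e)) : ℚ) : ℂ) = (fun i => (e i : ℂ)) ⬝ᵥ (cm Qb *ᵥ ((cm M ^ k) *ᵥ (fun i => (e i : ℂ)))) := by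
    rw [← h1]
    show ((∑ i, e i * ∑ j, Qb i j * ((M ^ k) *ᵥ e) j : ℚ) : ℂ) = ∑ i, (e i : ℂ) * ∑ j, cm Qb i j * _
    push_cast
    rfl
  have h3 : κ * ((e ⬝ᵥ (Qb *ᵥ ((M ^ k) *ᵥ e)) : ℚ) : ℂ) =
      (fun i => (e i : ℂ)) ⬝ᵥ ((κ • cm Qb) *ᵥ ((cm M ^ k) *ᵥ (fun i => (e i : ℂ)))) := by
    rw [h2, Matrix.smul_mulVec, dotProduct_smul, smul_eq_mul]
  rw [h3, ← hP]
  set v := C *ᵥ fun i => (e i : ℂ) with hv
  have h4 : cm (Am n) ^ k *ᵥ v = (cm (Am n) ^ k * C) *ᵥ fun i => (e i : ℂ) := by rw [hv, mulVec_mulVec]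
  have h5 : s ^ k • (cm (Am n) ^ k *ᵥ v) = (C * cm M ^ k) *ᵥ fun i => (e i : ℂ) := by
    rw [h4, C_pow hM, Matrix.smul_mulVec]
  have h6 : s ^ k * (v ⬝ᵥ (cm (Jm n Q) *ᵥ (cm (Am n) ^ k *ᵥ v))) =
      v ⬝ᵥ (cm (Jm n Q) *ᵥ ((C * cm M ^ k) *ᵥ fun i => (e i : ℂ))) := by
    rw [← h5, Matrix.mulVec_smul, dotProduct_smul, smul_eq_mul]
  rw [h6, hv]
  have h7 : ∀ z : Fin n → ℂ, (C *ᵥ fun i => (e i : ℂ)) ⬝ᵥ z = (fun i => (e i : ℂ)) ⬝ᵥ (C.transpose *ᵥ z) := by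
    intro z
    rw [Matrix.mulVec_transpose, dotProduct_comm, Matrix.dotProduct_mulVec, dotProduct_comm]
  rw [h7]
  simp only [mulVec_mulVec, Matrix.mul_assoc]

/-- rational linear forms on a vector defined over a subfield -/
lemma dot_K (K : IntermediateField ℚ ℂ) (x : Fin n → K) (w : Fin n → ℚ) (c : ℂ) :
    (fun i => c * ((x i : K) : ℂ)) ⬝ᵥ (fun i => (w i : ℂ)) = c * (((∑ i, x i * algebraMap ℚ K (w i) : K)) : ℂ) := by
  show ∑ i, c * ((x i : K) : ℂ) * (w i : ℂ) = _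
  rw [← IntermediateField.coe_val, map_sum, Finset.mul_sum]
  refine Finset.sum_congr rfl fun i _ => ?_
  rw [map_mul, mul_assoc]
  rfl

end

end Pool.Agent.Y118.CM
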