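import Pool.Agent.Y119.HY.Fin2

/-!
# From the exponents `β_j`, `1 - β_j` to the exponents `β_j`, `-β_j`
-/

set_option autoImplicit false
set_option maxHeartbeats 400000

open Matrix PowerSeries Pool.Agent.Y119.HY Pool.Agent.Y119.HZ

namespace Pool.Agent.Y118.CM

section mat
variable {n : ℕ}

/-- entries of polynomials in the shift -/
lemma aeval_Am (P : Polynomial ℚ) (i j : Fin n) : (Polynomial.aeval (Am n) P) i j =
    if (i : ℕ) ≤ j then P.coeff (j - i) else 0 := by
  rw [Polynomial.aeval_eq_sum_range, Matrix.sum_apply]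
  simp only [Matrix.smul_apply, Am_pow, smul_eq_mul]
  split_ifs with h
  · by_cases h2 : (j : ℕ) - i ∈ Finset.range (P.natDegree + 1)
    · rw [Finset.sum_eq_single_of_mem _ h2]
      · rw [if_pos (by omega), mul_one]
      · intro l _ hl
        rw [if_neg (by omega), mul_zero]
    · rw [Polynomial.coeff_eq_zero_of_natDegree_lt (by rw [Finset.mem_range] at h2; omega)]
      refine Finset.sum_eq_zero fun l hl => ?_
      rw [Finset.mem_range] at hl h2
      rw [if_neg (by omega), mul_zero]
  · refine Finset.sum_eq_zero fun l _ => ?_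
    rw [if_neg (by omega), mul_zero]

/-- the antidiagonal form -/
def J0 (n : ℕ) : Matrix (Fin n) (Fin n) ℚ := Matrix.of fun i j => if (i : ℕ) + j + 1 = n then (-1) ^ (i : ℕ) else 0

lemma J0_mul (X : Matrix (Fin n) (Fin n) ℚ) (i j : Fin n) : (J0 n * X) i j =
    (-1) ^ (i : ℕ) * X ⟨n - 1 - i, by have := i.2; omega⟩ j := by
  rw [Matrix.mul_apply, Finset.sum_eq_single (⟨n - 1 - i, by have := i.2; omega⟩ : Fin n)]
  · unfold J0
    rw [Matrix.of_apply, if_pos (by have := i.2; show (i : ℕ) + (n - 1 - i) + 1 = n; omega)]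
  · intro b _ hb
    unfold J0
    rw [Matrix.of_apply, if_neg, zero_mul]
    intro h
    apply hb
    apply Fin.ext
    show (b : ℕ) = n - 1 - i
    omega
  · intro h
    exact absurd (Finset.mem_univ _) h

/-- the form of the equation -/
lemma J0_Q (Q : Polynomial ℚ) : J0 n * Polynomial.aeval (Am n) Q = Jm n Q := by
  ext i j
  rw [J0_mul, aeval_Am]
  unfold Jm
  rw [Matrix.of_apply]
  have hi := i.2
  have hj := j.2
  by_cases h : n ≤ (i : ℕ) + j + 1
  · rw [if_pos h, if_pos (by show n - 1 - (i : ℕ) ≤ j; omega)]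
    congr 2
    show (j : ℕ) - (n - 1 - i) = _
    omega
  · rw [if_neg h, if_neg (by show ¬ n - 1 - (i : ℕ) ≤ j; omega), mul_zero]

lemma J0_rel : (Am n).transpose * J0 n = -(J0 n * Am n) := by
  ext i j
  rw [Matrix.neg_apply, J0_mul, Matrix.mul_apply]
  simp only [Matrix.transpose_apply]
  unfold Am
  simp only [Matrix.of_apply]
  have hi := i.2
  have hj := j.2
  by_cases h0 : (i : ℕ) = 0
  · rw [Finset.sum_eq_zero fun k _ => by rw [if_neg (by omega), zero_mul]]
    rw [if_neg (by show ¬ (j : ℕ) = n - 1 - (i : ℕ) + 1; omega), mul_zero, neg_zero]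
  · rw [Finset.sum_eq_single (⟨i - 1, by omega⟩ : Fin n)]
    · rw [if_pos (by show (i : ℕ) = i - 1 + 1; omega), one_mul]
      unfold J0
      rw [Matrix.of_apply]
      by_cases h1 : (i : ℕ) + j = n
      · rw [if_pos (by show (i : ℕ) - 1 + j + 1 = n; omega), if_pos (by show (j : ℕ) = n - 1 - (i : ℕ) + 1; omega), mul_one]
        obtain ⟨k, hk⟩ : ∃ k, (i : ℕ) = k + 1 := ⟨i - 1, by omega⟩
        show (-1 : ℚ) ^ ((i : ℕ) - 1) = -(-1) ^ (i : ℕ)
        rw [hk, Nat.add_sub_cancel, pow_succ]
        ring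
      · rw [if_neg (by show ¬ (i : ℕ) - 1 + j + 1 = n; omega), if_neg (by show ¬ (j : ℕ) = n - 1 - (i : ℕ) + 1; omega), mul_zero,
          neg_zero]
    · intro b _ hb
      rw [if_neg, zero_mul]
      intro h
      apply hb
      apply Fin.ext
      show (b : ℕ) = i - 1
      omega
    · intro h
      exact absurd (Finset.mem_univ _) h

lemma J0_pow (k : ℕ) : ((Am n) ^ k).transpose * J0 n = J0 n * (-(Am n)) ^ k := by
  induction k with
  | zero => simp
  | succ k ih =>
    rw [pow_succ, Matrix.transpose_mul, Matrix.mul_assoc, ih, ← Matrix.mul_assoc, J0_rel, pow_succ', ← Matrix.mul_assoc,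
      Matrix.neg_mul, Matrix.mul_neg, Matrix.neg_mul]

lemma J0_aeval (P : Polynomial ℚ) : (Polynomial.aeval (Am n) P).transpose * J0 n = J0 n * Polynomial.aeval (-(Am n)) P := by
  rw [Polynomial.aeval_eq_sum_range, Polynomial.aeval_eq_sum_range, Matrix.transpose_sum, Finset.sum_mul, Finset.mul_sum]
  refine Finset.sum_congr rfl fun k _ => ?_
  rw [Matrix.transpose_smul, Matrix.smul_mul, J0_pow, Matrix.mul_smul]

end mat

section poly
variable {m : ℕ} (β : Fin m → ℚ)

/-- `∏ (x - β_j)` -/
noncomputable def Dp : Polynomial ℚ := ∏ j, (Polynomial.X - Polynomial.C (β j))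

lemma Dp_neg {A : Type} [CommRing A] [Algebra ℚ A] (x : A) : Polynomial.aeval x (QB β) =
    (-1) ^ m * (Polynomial.aeval x (Dp β) * Polynomial.aeval (-x) (Dp β)) := by
  unfold QB Dp
  rw [map_prod, map_prod, map_prod, ← Finset.prod_mul_distrib]
  have h1 : ((-1 : A)) ^ m = ∏ _j : Fin m, (-1 : A) := by rw [Finset.prod_const, Finset.card_univ, Fintype.card_fin]
  rw [h1, ← Finset.prod_mul_distrib]
  refine Finset.prod_congr rfl fun j _ => ?_
  simp only [map_sub, map_pow, Polynomial.aeval_X, Polynomial.aeval_C]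
  ring

/-- **the relation between the two forms** -/
lemma form_rel (n : ℕ) : (Polynomial.aeval (Am n) (Dp β)).transpose * J0 n * Polynomial.aeval (Am n) (Dp β) =
    (-1 : ℚ) ^ m • Jm n (QB β) := by
  rw [J0_aeval, ← J0_Q, Matrix.mul_assoc, ← Matrix.mul_smul]
  congr 1
  -- in the commutative algebra of polynomials
  have h1 := Dp_neg β (Polynomial.X : Polynomial ℚ)
  have h2 : Polynomial.aeval (Polynomial.X : Polynomial ℚ) (QB β) = QB β := Polynomial.aeval_X_left_apply _
  have h3 : Polynomial.aeval (Polynomial.X : Polynomial ℚ) (Dp β) = Dp β := Polynomial.aeval_X_left_apply _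
  rw [h2, h3] at h1
  have h4 := congrArg (Polynomial.aeval (Am n)) h1
  have h5 : Polynomial.aeval (Am n) (Polynomial.aeval (-Polynomial.X : Polynomial ℚ) (Dp β)) =
      Polynomial.aeval (-(Am n)) (Dp β) := by
    rw [← Polynomial.comp_eq_aeval, Polynomial.aeval_comp, map_neg, Polynomial.aeval_X]
  rw [map_mul, map_mul, h5, map_pow, map_neg, map_one] at h4
  have h6 : Polynomial.aeval (-(Am n)) (Dp β) * Polynomial.aeval (Am n) (Dp β) =
      Polynomial.aeval (Am n) (Dp β) * Polynomial.aeval (-(Am n)) (Dp β) := by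
    rw [← h5, ← map_mul, ← map_mul, mul_comm]
  rw [h4, h6]
  rcases Nat.even_or_odd m with he | ho
  · rw [he.neg_one_pow, he.neg_one_pow, one_mul, one_smul]
  · rw [ho.neg_one_pow, ho.neg_one_pow, neg_smul, one_smul, neg_mul, one_mul, neg_neg]

end poly

end Pool.Agent.Y118.CM
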