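import Pool.Agent.Y118.CM.Cv

/-!
# The Frobenius solutions of the Calabi–Yau operator
-/

set_option autoImplicit false
set_option maxHeartbeats 400000

open Matrix PowerSeries Pool.Agent.Y119.HY Pool.Agent.Y119.HZ

namespace Pool.Agent.Y118.CM

/-- `x + ε` -/
noncomputable def ep (x : ℚ) : ℚ⟦X⟧ := C x + X

lemma ep_nat (k : ℕ) : ep k = kx k := rfl

variable {m : ℕ} (β : Fin m → ℚ)

/-- the coefficients of the Frobenius solution -/
noncomputable def fa (k : ℕ) : ℚ⟦X⟧ :=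
  ∏ l ∈ Finset.range k, ∏ j, (ep (l + β j) * ep (l + 1 - β j) * ((ep (l + 1))⁻¹) ^ 2)

lemma Dp_ep (x : ℚ) : Polynomial.aeval (ep x) (Dp β) = ∏ j, ep (x - β j) := by
  unfold Dp
  rw [map_prod]
  refine Finset.prod_congr rfl fun j _ => ?_
  rw [map_sub, Polynomial.aeval_X, Polynomial.aeval_C]
  show ep x - C (β j) = _
  unfold ep
  rw [map_sub]
  ring

lemma QB_ep (x : ℚ) : Polynomial.aeval (ep x) (QB β) = (∏ j, ep (x - β j)) * ∏ j, ep (x + β j) := by
  unfold QB
  rw [map_prod, ← Finset.prod_mul_distrib]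
  refine Finset.prod_congr rfl fun j _ => ?_
  simp only [map_sub, map_pow, Polynomial.aeval_X, Polynomial.aeval_C]
  show ep x ^ 2 - (C (β j)) ^ 2 = _
  unfold ep
  simp only [map_sub, map_add, map_pow]
  ring

/-- the contiguity relation -/
lemma fa_rel (k : ℕ) : fa β k * Polynomial.aeval (X : ℚ⟦X⟧) (Dp β) =
    Polynomial.aeval (kx k) (Dp β) * aq (2 * m) (QB β) k := by
  induction k with
  | zero =>
    have h1 : kx 0 = X := by
      unfold kx
      simp
    rw [h1]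
    unfold fa aq
    simp
  | succ k ih =>
    have e1 : fa β (k + 1) = fa β k * ∏ j, (ep (k + β j) * ep (k + 1 - β j) * ((ep (k + 1))⁻¹) ^ 2) := by
      unfold fa
      rw [Finset.prod_range_succ]
    have e2 : aq (2 * m) (QB β) (k + 1) = aq (2 * m) (QB β) k *
        (Polynomial.aeval (kx k) (QB β) * ((kx (k + 1))⁻¹) ^ (2 * m)) := by
      unfold aq
      rw [Finset.prod_range_succ]
    have e3 : ep ((k : ℚ) + 1) = kx (k + 1) := by
      unfold ep kx
      push_cast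
      rfl
    have e4 : ∏ j, (ep (k + β j) * ep (k + 1 - β j) * ((ep ((k : ℚ) + 1))⁻¹) ^ 2) =
        (∏ j, ep (k + β j)) * (∏ j, ep (k + 1 - β j)) * ((kx (k + 1))⁻¹) ^ (2 * m) := by
      rw [Finset.prod_mul_distrib, Finset.prod_mul_distrib, Finset.prod_const, Finset.card_univ, Fintype.card_fin, ← pow_mul, e3]
    have e5 : Polynomial.aeval (kx (k + 1)) (Dp β) = ∏ j, ep (k + 1 - β j) := by rw [← e3, Dp_ep]
    have e6 : Polynomial.aeval (kx k) (Dp β) = ∏ j, ep (k - β j) := by rw [← ep_nat, Dp_ep]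
    have e7 : Polynomial.aeval (kx k) (QB β) = (∏ j, ep (k - β j)) * ∏ j, ep (k + β j) := by rw [← ep_nat, QB_ep]
    rw [e1, e2, e4, e5, e7]
    rw [e6] at ih
    calc fa β k * ((∏ j, ep (k + β j)) * (∏ j, ep (k + 1 - β j)) * ((kx (k + 1))⁻¹) ^ (2 * m)) *
          Polynomial.aeval (X : ℚ⟦X⟧) (Dp β) = (fa β k * Polynomial.aeval (X : ℚ⟦X⟧) (Dp β)) *
          ((∏ j, ep (k + β j)) * (∏ j, ep (k + 1 - β j)) * ((kx (k + 1))⁻¹) ^ (2 * m)) := by ring
      _ = _ := by
        rw [ih]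
        ring

/-- the coefficients of `x^i ∏ (x - β_j)` -/
noncomputable def dd (i c : ℕ) : ℚ := (Dp β * Polynomial.X ^ i).coeff c

lemma Dp_deg : (Dp β).natDegree = m := by
  unfold Dp
  rw [Polynomial.natDegree_prod_of_monic _ _ fun j _ => Polynomial.monic_X_sub_C _]
  simp

lemma Dp_monic : (Dp β).Monic := Polynomial.monic_prod_of_monic _ _ fun j _ => Polynomial.monic_X_sub_C _

/-- the coefficients as rows -/
noncomputable def hr (i k : ℕ) : Fin (2 * m) → ℚ := fun j => coeff (j : ℕ) (kx k ^ i * fa β k)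

lemma hr_rel {i : ℕ} (hi : m + i < 2 * m) (k : ℕ) : hr β i k ᵥ* Polynomial.aeval (Am (2 * m)) (Dp β) =
    (fun c : Fin (2 * m) => dd β i c) ᵥ* Hq (2 * m) (QB β) k := by
  funext j
  have h1 : (hr β i k ᵥ* Polynomial.aeval (Am (2 * m)) (Dp β)) j =
      coeff (j : ℕ) (kx k ^ i * fa β k * (Dp β : ℚ⟦X⟧)) := by
    show ∑ c, hr β i k c * (Polynomial.aeval (Am (2 * m)) (Dp β)) c j = _
    rw [coeff_mul, Finset.Nat.sum_antidiagonal_eq_sum_range_succ (fun a b => coeff a (kx k ^ i * fa β k) *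
      coeff b (Dp β : ℚ⟦X⟧))]
    simp only [aeval_Am]
    rw [← Fin.sum_univ_eq_sum_range (fun c => coeff c (kx k ^ i * fa β k) * coeff ((j : ℕ) - c) (Dp β : ℚ⟦X⟧)) _] 
    rw [Fin.sum_univ_eq_sum_range (fun c => coeff c (kx k ^ i * fa β k) * coeff ((j : ℕ) - c) (Dp β : ℚ⟦X⟧)) _]
    have h2 : ∀ c : Fin (2 * m), hr β i k c * (if (c : ℕ) ≤ j then (Dp β).coeff (j - c) else 0) =
        (fun c : ℕ => if c ≤ (j : ℕ) then coeff c (kx k ^ i * fa β k) * coeff ((j : ℕ) - c) (Dp β : ℚ⟦X⟧) else 0) c := by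
      intro c
      show coeff (c : ℕ) (kx k ^ i * fa β k) * _ = _
      simp only
      split_ifs
      · rw [Polynomial.coeff_coe]
      · rw [mul_zero]
    simp only [h2]
    rw [Fin.sum_univ_eq_sum_range (fun c : ℕ => if c ≤ (j : ℕ) then coeff c (kx k ^ i * fa β k) *
      coeff ((j : ℕ) - c) (Dp β : ℚ⟦X⟧) else 0)]
    have hj := j.2
    rw [← Finset.sum_subset (Finset.range_mono (show (j : ℕ) + 1 ≤ 2 * m by omega))]
    · refine Finset.sum_congr rfl fun c hc => ?_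
      rw [Finset.mem_range] at hc
      rw [if_pos (by omega)]
    · intro c _ hc
      rw [Finset.mem_range] at hc
      rw [if_neg (by omega)]
  rw [h1]
  have h3 : Polynomial.aeval (X : ℚ⟦X⟧) (Dp β) = (Dp β : ℚ⟦X⟧) := by
    have h4 : (Polynomial.aeval (X : ℚ⟦X⟧) : Polynomial ℚ →ₐ[ℚ] ℚ⟦X⟧) = Polynomial.coeToPowerSeries.algHom ℚ := by
      refine Polynomial.algHom_ext ?_
      rw [Polynomial.aeval_X]
      simp [Polynomial.coeToPowerSeries.algHom_apply]
    rw [h4]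
    simp [Polynomial.coeToPowerSeries.algHom_apply]
  rw [← h3, mul_assoc, fa_rel]
  have h5 : kx k ^ i * (Polynomial.aeval (kx k) (Dp β) * aq (2 * m) (QB β) k) =
      Polynomial.aeval (kx k) (Dp β * Polynomial.X ^ i) * aq (2 * m) (QB β) k := by
    rw [map_mul, map_pow, Polynomial.aeval_X]
    ring
  rw [h5]
  have hdeg : (Dp β * Polynomial.X ^ i).natDegree < 2 * m := by
    rw [Polynomial.natDegree_mul_X_pow _ (Dp_monic β).ne_zero, Dp_deg]
    exact hi
  rw [Polynomial.aeval_eq_sum_range' hdeg, Finset.sum_mul, map_sum]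
  show _ = ∑ c : Fin (2 * m), dd β i c * Hq (2 * m) (QB β) k c j
  rw [Finset.sum_range]
  refine Finset.sum_congr rfl fun c _ => ?_
  rw [smul_mul_assoc, map_smul, smul_eq_mul]
  rfl

end Pool.Agent.Y118.CM
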