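import Pool.Agent.Y118.CM.Cw

/-!
# The period rows of the Calabi–Yau operator in terms of the symmetric equation
-/

set_option autoImplicit false
set_option maxHeartbeats 400000

open Matrix PowerSeries Pool.Agent.Y119.HY Pool.Agent.Y119.HZ

namespace Pool.Agent.Y118.CM

variable {m : ℕ} (β : Fin m → ℚ)

/-- `D(N)` -/
noncomputable def DN : Matrix (Fin (2 * m)) (Fin (2 * m)) ℚ := Polynomial.aeval (Am (2 * m)) (Dp β)

/-- the holomorphic parts of the period rows -/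
noncomputable def eta (z : ℂ) (i : ℕ) (j : ℕ) : ℂ := ∑' k : ℕ, ((coeff j (kx k ^ i * fa β k) : ℚ) : ℂ) * z ^ k

/-- the period rows -/
noncomputable def perr (t i : ℕ) : Fin (2 * m) → ℂ := fun j =>
  ∑ l ∈ Finset.range ((j : ℕ) + 1), ((Real.log (1 / t) ^ l / l.factorial : ℝ) : ℂ) * eta β (1 / (t : ℂ)) i ((j : ℕ) - l)

variable {β}

lemma form_relc : (cm (DN β)).transpose * cm (J0 (2 * m)) * cm (DN β) = ((-1 : ℂ) ^ m) • cm (Jm (2 * m) (QB β)) := by
  have h := congrArg cm (form_rel β (2 * m))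
  rw [cm_mul, cm_mul, cm_transpose] at h
  rw [show cm ((-1 : ℚ) ^ m • Jm (2 * m) (QB β)) = ((-1 : ℂ) ^ m) • cm (Jm (2 * m) (QB β)) from ?_] at h
  · exact h
  · ext i j
    rw [cm_apply, Matrix.smul_apply, Matrix.smul_apply, cm_apply, smul_eq_mul, smul_eq_mul]
    push_cast
    ring

lemma DN_det (hQ : QD (2 * m) (QB β)) : (cm (DN β)).det ≠ 0 := by
  intro h
  have h1 := congrArg Matrix.det (form_relc (β := β))
  rw [Matrix.det_mul, h, mul_zero, Matrix.det_smul] at h1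
  have h2 : ((-1 : ℂ) ^ m) ^ Fintype.card (Fin (2 * m)) ≠ 0 := pow_ne_zero _ (pow_ne_zero _ (by norm_num))
  exact mul_ne_zero h2 (Jc_det hQ) h1.symm

lemma DN_unit (hQ : QD (2 * m) (QB β)) : IsUnit (DN β).det := by
  have h := DN_det hQ
  have h2 : (cm (DN β)).det = (((DN β).det : ℚ) : ℂ) := by
    have := (algebraMap ℚ ℂ).map_det (DN β)
    simpa [cm] using this.symm
  rw [h2] at h
  exact isUnit_iff_ne_zero.2 (by exact_mod_cast h)

lemma hr_eq (hQ : QD (2 * m) (QB β)) {i : ℕ} (hi : m + i < 2 * m) (k : ℕ) : hr β i k =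
    ((fun c : Fin (2 * m) => dd β i c) ᵥ* Hq (2 * m) (QB β) k) ᵥ* (DN β)⁻¹ := by
  rw [← hr_rel β hi k]
  show _ = (hr β i k ᵥ* DN β) ᵥ* (DN β)⁻¹
  rw [vecMul_vecMul, Matrix.mul_nonsing_inv _ (DN_unit hQ), vecMul_one]

lemma eta_eq (hQ : QD (2 * m) (QB β)) {i : ℕ} (hi : m + i < 2 * m) {z : ℂ} (hz : ‖z‖ < 1) :
    (fun j : Fin (2 * m) => eta β z i j) =
    ((fun c : Fin (2 * m) => (dd β i c : ℂ)) ᵥ* Hf (Hc (2 * m) (QB β)) z) ᵥ* cm (DN β)⁻¹ := by
  funext j
  have hs : ∀ c b : Fin (2 * m), Summable fun k : ℕ => Hc (2 * m) (QB β) k c b * z ^ k := fun c b =>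
    ((sol_c hQ).growth Ac_nil c b).summable' hz
  show eta β z i j = ∑ b : Fin (2 * m), (∑ c : Fin (2 * m), (dd β i c : ℂ) * Hf (Hc (2 * m) (QB β)) z c b) * cm (DN β)⁻¹ b j
  have h1 : ∀ k : ℕ, ((coeff (j : ℕ) (kx k ^ i * fa β k) : ℚ) : ℂ) * z ^ k =
      ∑ b : Fin (2 * m), ∑ c : Fin (2 * m), ((dd β i c : ℂ) * cm (DN β)⁻¹ b j) * (Hc (2 * m) (QB β) k c b * z ^ k) := by
    intro k
    have h2 : coeff (j : ℕ) (kx k ^ i * fa β k) = ∑ b, (∑ c : Fin (2 * m), dd β i c * Hq (2 * m) (QB β) k c b) *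
        (DN β)⁻¹ b j := congrFun (hr_eq hQ hi k) j
    rw [h2, Rat.cast_sum, Finset.sum_mul]
    refine Finset.sum_congr rfl fun b _ => ?_
    rw [Rat.cast_mul, Rat.cast_sum, Finset.sum_mul, Finset.sum_mul]
    refine Finset.sum_congr rfl fun c _ => ?_
    rw [cm_apply]
    show _ = _ * ((cm (Hq (2 * m) (QB β) k)) c b * _)
    rw [cm_apply]
    push_cast
    ring
  unfold eta
  simp only [h1]
  rw [Summable.tsum_finsetSum fun b _ => summable_sum fun c _ => (hs c b).mul_left _]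
  refine Finset.sum_congr rfl fun b _ => ?_
  rw [Summable.tsum_finsetSum fun c _ => (hs c b).mul_left _, Finset.sum_mul]
  refine Finset.sum_congr rfl fun c _ => ?_
  rw [tsum_mul_left]
  unfold Hf ps
  rw [Matrix.of_apply]
  ring

lemma perr_eq (t i : ℕ) : perr β t i = (fun j : Fin (2 * m) => eta β (1 / (t : ℂ)) i j) ᵥ*
    E (cm (Am (2 * m))) (-((Real.log t : ℝ) : ℂ)) := by
  funext j
  show _ = ∑ c : Fin (2 * m), eta β (1 / (t : ℂ)) i c * E (cm (Am (2 * m))) (-((Real.log t : ℝ) : ℂ)) c j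
  unfold perr
  have hE : ∀ c : Fin (2 * m), E (cm (Am (2 * m))) (-((Real.log t : ℝ) : ℂ)) c j = ∑ l ∈ Finset.range (2 * m),
        if (j : ℕ) = c + l then ((Real.log (1 / t) ^ l / l.factorial : ℝ) : ℂ) else 0 := by
    intro c
    unfold E
    rw [Matrix.sum_apply]
    refine Finset.sum_congr rfl fun l _ => ?_
    rw [Matrix.smul_apply, ← cm_pow, cm_apply, Am_pow, smul_eq_mul, one_div, Real.log_inv]
    split_ifs
    · push_cast
      ring
    · simp
  simp only [hE, Finset.mul_sum]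
  rw [Finset.sum_comm]
  have hsub : Finset.range ((j : ℕ) + 1) ⊆ Finset.range (2 * m) := by
    intro l hl
    rw [Finset.mem_range] at hl ⊢
    have := j.2
    omega
  refine Finset.sum_subset_zero_on_sdiff hsub (fun l hl => ?_) fun l hl => ?_
  · rw [Finset.mem_sdiff, Finset.mem_range, Finset.mem_range] at hl
    refine Finset.sum_eq_zero fun c _ => ?_
    rw [if_neg (by omega), mul_zero]
  · rw [Finset.mem_range] at hl
    have hj := j.2
    rw [Finset.sum_eq_single (⟨(j : ℕ) - l, by omega⟩ : Fin (2 * m))]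
    · rw [if_pos (by simp only; omega), mul_comm]
    · intro c _ hc
      rw [if_neg, mul_zero]
      intro h
      apply hc
      apply Fin.ext
      simp only
      omega
    · intro h
      exact absurd (Finset.mem_univ _) h

/-- everything commutes with the shift -/
lemma DN_comm (hQ : QD (2 * m) (QB β)) : cm (DN β)⁻¹ * cm (Am (2 * m)) = cm (Am (2 * m)) * cm (DN β)⁻¹ := by
  have h1 : DN β * Am (2 * m) = Am (2 * m) * DN β := by
    have h2 : Polynomial.aeval (Am (2 * m)) (Dp β * Polynomial.X) = Polynomial.aeval (Am (2 * m)) (Polynomial.X * Dp β) := by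
      rw [mul_comm (Dp β)]
    rwa [map_mul, map_mul, Polynomial.aeval_X] at h2
  rw [← cm_mul, ← cm_mul]
  congr 1
  have hu := DN_unit hQ
  calc (DN β)⁻¹ * Am (2 * m) = (DN β)⁻¹ * (Am (2 * m) * DN β) * (DN β)⁻¹ := by
        rw [Matrix.mul_assoc, Matrix.mul_assoc, Matrix.mul_nonsing_inv _ hu, Matrix.mul_one]
    _ = (DN β)⁻¹ * (DN β * Am (2 * m)) * (DN β)⁻¹ := by rw [h1]
    _ = Am (2 * m) * (DN β)⁻¹ := by
        rw [← Matrix.mul_assoc, Matrix.nonsing_inv_mul _ hu, Matrix.one_mul]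

lemma E_comm {n : ℕ} (N : Matrix (Fin n) (Fin n) ℂ) (s : ℂ) : E N s * N = N * E N s := by
  unfold E
  rw [Finset.sum_mul, Finset.mul_sum]
  refine Finset.sum_congr rfl fun i _ => ?_
  rw [smul_mul_assoc, mul_smul_comm, ← pow_succ, ← pow_succ']

/-- the base change -/
noncomputable def Cc (β : Fin m → ℚ) (t : ℕ) (C : Matrix (Fin (2 * m)) (Fin (2 * m)) ℂ) : Matrix (Fin (2 * m)) (Fin (2 * m)) ℂ :=
  cm (DN β)⁻¹ * E (cm (Am (2 * m))) (-((Real.log t : ℝ) : ℂ)) * C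

lemma perr_C (hQ : QD (2 * m) (QB β)) {i : ℕ} (hi : m + i < 2 * m) {t : ℕ} (ht : 2 ≤ t)
    (C : Matrix (Fin (2 * m)) (Fin (2 * m)) ℂ) : perr β t i ᵥ* C =
    ((fun c : Fin (2 * m) => (dd β i c : ℂ)) ᵥ* Hf (Hc (2 * m) (QB β)) (((1 / (t : ℝ) : ℝ)) : ℂ)) ᵥ* Cc β t C := by
  have h1 : (((1 / (t : ℝ) : ℝ)) : ℂ) = 1 / (t : ℂ) := by push_cast; rfl
  have h2 : ‖(1 / (t : ℂ))‖ < 1 := by
    rw [norm_div, norm_one, Complex.norm_natCast, div_lt_one (by positivity)]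
    exact_mod_cast (by omega : 1 < t)
  rw [h1, perr_eq, eta_eq hQ hi h2]
  unfold Cc
  simp only [vecMul_vecMul, Matrix.mul_assoc]

lemma Cc_det (hQ : QD (2 * m) (QB β)) (t : ℕ) {C : Matrix (Fin (2 * m)) (Fin (2 * m)) ℂ} (hC : C.det ≠ 0) :
    (Cc β t C).det ≠ 0 := by
  unfold Cc
  rw [Matrix.det_mul, Matrix.det_mul]
  refine mul_ne_zero (mul_ne_zero ?_ ?_) hC
  · intro h
    have h1 : cm (DN β) * cm (DN β)⁻¹ = 1 := by rw [← cm_mul, Matrix.mul_nonsing_inv _ (DN_unit hQ), cm_one]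
    have h2 := congrArg Matrix.det h1
    rw [Matrix.det_mul, h, mul_zero, Matrix.det_one] at h2
    exact zero_ne_one h2
  · intro h
    have h2 := congrArg Matrix.det (E_mul_neg (Ac_nil (n := 2 * m)) (-((Real.log t : ℝ) : ℂ)))
    rw [Matrix.det_mul, h, zero_mul, Matrix.det_one] at h2
    exact zero_ne_one h2

lemma Cc_mon (hQ : QD (2 * m) (QB β)) (t : ℕ) {C M : Matrix (Fin (2 * m)) (Fin (2 * m)) ℂ} {s : ℂ}
    (h : C * M = s • (cm (Am (2 * m)) * C)) : Cc β t C * M = s • (cm (Am (2 * m)) * Cc β t C) := by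
  unfold Cc
  rw [Matrix.mul_assoc, h, mul_smul_comm, ← Matrix.mul_assoc, Matrix.mul_assoc (cm (DN β)⁻¹), E_comm, ← Matrix.mul_assoc,
    DN_comm hQ, Matrix.mul_assoc (cm (Am (2 * m))), Matrix.mul_assoc (cm (Am (2 * m)))]

lemma J0c_rel (n : ℕ) : (cm (Am n)).transpose * cm (J0 n) + cm (J0 n) * cm (Am n) = 0 := by
  rw [← cm_transpose, ← cm_mul, ← cm_mul, ← cm_add, J0_rel, neg_add_cancel, cm_zero]

lemma Cc_pol (hQ : QD (2 * m) (QB β)) (t : ℕ) {C Q : Matrix (Fin (2 * m)) (Fin (2 * m)) ℂ} {κ : ℂ}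
    (h : C.transpose * cm (J0 (2 * m)) * C = κ • Q) : (Cc β t C).transpose * cm (Jm (2 * m) (QB β)) * Cc β t C =
    ((-1) ^ m * κ) • Q := by
  set Ei := E (cm (Am (2 * m))) (-((Real.log t : ℝ) : ℂ)) with hE
  have h1 : cm (DN β) * cm (DN β)⁻¹ = 1 := by rw [← cm_mul, Matrix.mul_nonsing_inv _ (DN_unit hQ), cm_one]
  have h2 : cm (Jm (2 * m) (QB β)) = ((-1 : ℂ) ^ m) • ((cm (DN β)).transpose * cm (J0 (2 * m)) * cm (DN β)) := by
    rw [form_relc, smul_smul, ← mul_pow]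
    norm_num
  have h3 : (cm (DN β)⁻¹).transpose * cm (Jm (2 * m) (QB β)) * cm (DN β)⁻¹ = ((-1 : ℂ) ^ m) • cm (J0 (2 * m)) := by
    rw [h2, mul_smul_comm, smul_mul_assoc]
    congr 1
    calc (cm (DN β)⁻¹).transpose * ((cm (DN β)).transpose * cm (J0 (2 * m)) * cm (DN β)) * cm (DN β)⁻¹ =
        (cm (DN β) * cm (DN β)⁻¹).transpose * cm (J0 (2 * m)) * (cm (DN β) * cm (DN β)⁻¹) := by
          rw [Matrix.transpose_mul]
          simp only [Matrix.mul_assoc]
      _ = _ := by rw [h1, Matrix.transpose_one, Matrix.one_mul, Matrix.mul_one]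
  have h4 : Ei.transpose * cm (J0 (2 * m)) * Ei = cm (J0 (2 * m)) := E_isom Ac_nil (J0c_rel (2 * m)) _
  calc (Cc β t C).transpose * cm (Jm (2 * m) (QB β)) * Cc β t C =
      C.transpose * (Ei.transpose * ((cm (DN β)⁻¹).transpose * cm (Jm (2 * m) (QB β)) * cm (DN β)⁻¹) * Ei) * C := by
        unfold Cc
        rw [← hE, Matrix.transpose_mul, Matrix.transpose_mul]
        simp only [Matrix.mul_assoc]
    _ = _ := by
        rw [h3, mul_smul_comm, smul_mul_assoc, h4, mul_smul_comm, smul_mul_assoc, h, smul_smul]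

lemma dd_succ (c : ℕ) : dd β 1 (c + 1) = dd β 0 c := by
  unfold dd
  rw [pow_one, pow_zero, mul_one, Polynomial.coeff_mul_X]

lemma dd_zero : dd β 1 0 = 0 := by
  unfold dd
  rw [pow_one, Polynomial.coeff_mul_X_zero]

lemma dd_ne (h : ∀ j, β j ≠ 0) : dd β 0 0 ≠ 0 := by
  unfold dd Dp
  rw [pow_zero, mul_one, Polynomial.coeff_zero_eq_eval_zero, Polynomial.eval_prod]
  refine Finset.prod_ne_zero_iff.2 fun j _ => ?_
  simpa using h j

lemma dd_quad : (QB β).coeff 0 * (2 * dd β 0 0 * dd β 0 2 - dd β 0 1 ^ 2) = (QB β).coeff 2 * dd β 0 0 ^ 2 := by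
  have h1 := Dp_neg β (Polynomial.X : Polynomial ℚ)
  have h2 : Polynomial.aeval (Polynomial.X : Polynomial ℚ) (QB β) = QB β := Polynomial.aeval_X_left_apply _
  have h3 : Polynomial.aeval (Polynomial.X : Polynomial ℚ) (Dp β) = Dp β := Polynomial.aeval_X_left_apply _
  have h4 : ∀ k, (Polynomial.aeval (-(Polynomial.X : Polynomial ℚ)) (Dp β)).coeff k = (Dp β).coeff k * (-1) ^ k := by
    intro k
    rw [← Polynomial.comp_eq_aeval]
    have : (-Polynomial.X : Polynomial ℚ) = Polynomial.C (-1) * Polynomial.X := by simp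
    rw [this, Polynomial.comp_C_mul_X_coeff]
  rw [h2, h3] at h1
  have h5 : ((-1 : Polynomial ℚ)) ^ m = Polynomial.C ((-1 : ℚ) ^ m) := by simp
  rw [h5] at h1
  have c0 : (QB β).coeff 0 = (-1) ^ m * ((Dp β).coeff 0 * (Dp β).coeff 0) := by
    rw [h1, Polynomial.coeff_C_mul, Polynomial.coeff_mul, Finset.Nat.antidiagonal_zero, Finset.sum_singleton, h4]
    ring
  have c2 : (QB β).coeff 2 = (-1) ^ m * (2 * (Dp β).coeff 0 * (Dp β).coeff 2 - (Dp β).coeff 1 ^ 2) := by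
    rw [h1, Polynomial.coeff_C_mul, Polynomial.coeff_mul, Finset.Nat.sum_antidiagonal_eq_sum_range_succ
      (fun a b => (Dp β).coeff a * (Polynomial.aeval (-(Polynomial.X : Polynomial ℚ)) (Dp β)).coeff b)]
    simp only [h4, Finset.sum_range_succ, Finset.sum_range_zero]
    ring
  unfold dd
  rw [pow_zero, mul_one, c0, c2]
  ring

end Pool.Agent.Y118.CM
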