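import Pool.Agent.Y118.CM.Alg

/-!
# The invariant of the Hodge flag
-/

set_option autoImplicit false
set_option maxHeartbeats 400000

open Matrix Pool.Agent.Y119.HY

namespace Pool.Agent.Y118.CM

/-- the field computation -/
theorem core (K : IntermediateField ℚ ℂ) {s σ u0 u1 u2 κ ε a0 a1 a2 b0 b1 b2 c c' c'' : ℂ} {q0 q2 Q1 Q3 : ℚ}
    (hs : s ≠ 0) (hσ : σ ≠ 0) (hu : u0 ≠ 0) (hq : q0 ≠ 0) (hε : ε ≠ 0)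
    {X0 X1 X2 Y0 Y1 Y2 : K}
    (e0 : c * X0 = σ * s ^ 2 * (a0 * u0)) (e1 : c * X1 = σ * s * (a0 * u1 + a1 * u0))
    (e2 : c * X2 = σ * (a0 * u2 + a1 * u1 + a2 * u0))
    (f0 : c' * X0 + c'' * Y0 = σ * s ^ 2 * (b0 * u0)) (f1 : c' * X1 + c'' * Y1 = σ * s * (b0 * u1 + b1 * u0))
    (f2 : c' * X2 + c'' * Y2 = σ * (b0 * u2 + b1 * u1 + b2 * u0))
    (g1 : κ * (Q1 : ℂ) = ε * σ * s ^ 2 * q0 * u0 ^ 2)
    (g3 : κ * (Q3 : ℂ) = ε * σ * (q0 * (2 * u0 * u2 - u1 ^ 2) + q2 * u0 ^ 2)) :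
    a0 = 0 ∨ a0 * b1 - a1 * b0 = 0 ∨ a0 * (a0 * b2 - a2 * b0) - a1 * (a0 * b1 - a1 * b0) = 0 ∨
      ∃ β : K, ((q0 : ℂ) * (2 * a0 * a2 - a1 ^ 2) - q2 * a0 ^ 2) * (a0 * b1 - a1 * b0) ^ 2 =
        (β : ℂ) * (a0 * (a0 * b2 - a2 * b0) - a1 * (a0 * b1 - a1 * b0)) ^ 2 := by
  by_cases ha : a0 = 0
  · exact Or.inl ha
  by_cases hp : a0 * b1 - a1 * b0 = 0
  · exact Or.inr (Or.inl hp)
  by_cases hW : a0 * (a0 * b2 - a2 * b0) - a1 * (a0 * b1 - a1 * b0) = 0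
  · exact Or.inr (Or.inr (Or.inl hW))
  refine Or.inr (Or.inr (Or.inr ?_))
  have hq' : (q0 : ℂ) ≠ 0 := by exact_mod_cast hq
  have hcX : c * (X0 : ℂ) ≠ 0 := by
    rw [e0]
    exact mul_ne_zero (mul_ne_zero hσ (pow_ne_zero _ hs)) (mul_ne_zero ha hu)
  have hc : c ≠ 0 := left_ne_zero_of_mul hcX
  have hX0 : (X0 : ℂ) ≠ 0 := right_ne_zero_of_mul hcX
  -- the quotients
  obtain ⟨x1, hx1⟩ : ∃ x1 : K, (X0 : ℂ) * x1 = X1 := ⟨X1 / X0, by push_cast; field_simp⟩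
  obtain ⟨x2, hx2⟩ : ∃ x2 : K, (X0 : ℂ) * x2 = X2 := ⟨X2 / X0, by push_cast; field_simp⟩
  have h1 : (x1 : ℂ) * (s * (a0 * u0)) = a0 * u1 + a1 * u0 := by
    refine mul_left_cancel₀ (mul_ne_zero hσ hs) ?_
    linear_combination e1 - (x1 : ℂ) * e0 + c * hx1
  have h2 : (x2 : ℂ) * (s ^ 2 * (a0 * u0)) = a0 * u2 + a1 * u1 + a2 * u0 := by
    refine mul_left_cancel₀ hσ ?_
    linear_combination e2 - (x2 : ℂ) * e0 + c * hx2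
  have hD : c * c'' * ((X0 : ℂ) * Y1 - X1 * Y0) = σ ^ 2 * s ^ 3 * u0 ^ 2 * (a0 * b1 - a1 * b0) := by
    linear_combination c * X0 * f1 - c * X1 * f0 + (σ * s * (b0 * u1 + b1 * u0)) * e0 - (σ * s ^ 2 * (b0 * u0)) * e1
  have hE : c * c'' * ((X0 : ℂ) * Y2 - X2 * Y0) = σ ^ 2 * s ^ 2 * u0 * (u1 * (a0 * b1 - a1 * b0) + u0 * (a0 * b2 - a2 * b0)) := by
    linear_combination c * X0 * f2 - c * X2 * f0 + (σ * (b0 * u2 + b1 * u1 + b2 * u0)) * e0 - (σ * s ^ 2 * (b0 * u0)) * e2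
  have hDn : c * c'' * ((X0 : ℂ) * Y1 - X1 * Y0) ≠ 0 := by
    rw [hD]
    exact mul_ne_zero (mul_ne_zero (mul_ne_zero (pow_ne_zero _ hσ) (pow_ne_zero _ hs)) (pow_ne_zero _ hu)) hp
  have hDn' : (X0 : ℂ) * Y1 - X1 * Y0 ≠ 0 := right_ne_zero_of_mul hDn
  obtain ⟨y, hy⟩ : ∃ y : K, ((X0 : ℂ) * Y1 - X1 * Y0) * y = (X0 : ℂ) * Y2 - X2 * Y0 :=
    ⟨(X0 * Y2 - X2 * Y0) / (X0 * Y1 - X1 * Y0), by push_cast; field_simp⟩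
  have h3 : s * u0 * (a0 * b1 - a1 * b0) * (y : ℂ) = u1 * (a0 * b1 - a1 * b0) + u0 * (a0 * b2 - a2 * b0) := by
    refine mul_left_cancel₀ (mul_ne_zero (mul_ne_zero (pow_ne_zero 2 hσ) (pow_ne_zero 2 hs)) hu) ?_
    linear_combination hE - (y : ℂ) * hD + c * c'' * hy
  have h4 : s * (a0 * b1 - a1 * b0) * a0 * ((y : ℂ) - x1) = a0 * (a0 * b2 - a2 * b0) - a1 * (a0 * b1 - a1 * b0) := by
    refine mul_left_cancel₀ hu ?_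
    linear_combination a0 * h3 - (a0 * b1 - a1 * b0) * h1
  have hyx : (y : ℂ) - x1 ≠ 0 := by
    intro h
    apply hW
    rw [← h4, h, mul_zero]
  have hQ1 : κ * (Q1 : ℂ) ≠ 0 := by
    rw [g1]
    exact mul_ne_zero (mul_ne_zero (mul_ne_zero (mul_ne_zero hε hσ) (pow_ne_zero _ hs)) hq') (pow_ne_zero _ hu)
  have hQ1' : (Q1 : ℂ) ≠ 0 := right_ne_zero_of_mul hQ1
  have h5 : ((Q3 : ℂ) / Q1) * (s ^ 2 * q0 * u0 ^ 2) = q0 * (2 * u0 * u2 - u1 ^ 2) + q2 * u0 ^ 2 := by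
    refine mul_left_cancel₀ (mul_ne_zero hε hσ) ?_
    have e : (Q3 : ℂ) / Q1 * Q1 = Q3 := div_mul_cancel₀ _ hQ1'
    linear_combination g3 - ((Q3 : ℂ) / Q1) * g1 + κ * e
  have h6 : q0 * s ^ 2 * (2 * (x2 : ℂ) - x1 ^ 2 - (Q3 : ℂ) / Q1) * a0 ^ 2 = q0 * (2 * a0 * a2 - a1 ^ 2) - q2 * a0 ^ 2 := by
    refine mul_left_cancel₀ (pow_ne_zero 2 hu) ?_
    linear_combination 2 * q0 * a0 * u0 * h2 - q0 * ((x1 : ℂ) * (s * (a0 * u0)) + (a0 * u1 + a1 * u0)) * h1 - a0 ^ 2 * h5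
  refine ⟨algebraMap ℚ K q0 * (2 * x2 - x1 ^ 2 - algebraMap ℚ K (Q3 / Q1)) / (y - x1) ^ 2, ?_⟩
  rw [← h4, ← h6]
  have e7 : ((algebraMap ℚ K q0 * (2 * x2 - x1 ^ 2 - algebraMap ℚ K (Q3 / Q1)) / (y - x1) ^ 2 : K) : ℂ) =
      (q0 : ℂ) * (2 * (x2 : ℂ) - x1 ^ 2 - (Q3 : ℂ) / Q1) / ((y : ℂ) - x1) ^ 2 := by
    push_cast
    rfl
  rw [e7]
  field_simp

/-- **The invariant of a Hodge flag which is defined over `K`.** -/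
theorem flag_inv {p : ℕ} {Q : Polynomial ℚ} (hQ0 : Q.coeff 0 ≠ 0) (hQ1 : Q.coeff 1 = 0) (K : IntermediateField ℚ ℂ)
    {C : Matrix (Fin (p + 4)) (Fin (p + 4)) ℂ} (hC : C.det ≠ 0) {M Qb : Matrix (Fin (p + 4)) (Fin (p + 4)) ℚ} {s κ : ℂ}
    (hs : s ≠ 0) (hM : C * cm M = s • (cm (Am (p + 4)) * C)) (hP : C.transpose * cm (Jm (p + 4) Q) * C = κ • cm Qb)
    {R0 R1 : Fin (p + 4) → ℂ} {x0 x1 : Fin (p + 4) → K} {c c' c'' : ℂ} (h0 : R0 ᵥ* C = fun i => c * (x0 i : ℂ))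
    (h1 : R1 ᵥ* C = fun i => c' * (x0 i : ℂ) + c'' * (x1 i : ℂ)) :
    ex R0 0 = 0 ∨ ex R0 0 * ex R1 1 - ex R0 1 * ex R1 0 = 0 ∨
      ex R0 0 * (ex R0 0 * ex R1 2 - ex R0 2 * ex R1 0) - ex R0 1 * (ex R0 0 * ex R1 1 - ex R0 1 * ex R1 0) = 0 ∨
      ∃ β : K, ((Q.coeff 0 : ℂ) * (2 * ex R0 0 * ex R0 2 - ex R0 1 ^ 2) - (Q.coeff 2 : ℂ) * ex R0 0 ^ 2) *
          (ex R0 0 * ex R1 1 - ex R0 1 * ex R1 0) ^ 2 =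
        (β : ℂ) * (ex R0 0 * (ex R0 0 * ex R1 2 - ex R0 2 * ex R1 0) - ex R0 1 * (ex R0 0 * ex R1 1 - ex R0 1 * ex R1 0)) ^ 2 := by
  obtain ⟨e, he⟩ := exists_e hC (by omega)
  have hp3 : p + 4 - 1 = p + 3 := by omega
  rw [hp3] at he
  set v : Fin (p + 4) → ℂ := C *ᵥ fun i => (e i : ℂ) with hv
  have hrow : ∀ (R : Fin (p + 4) → ℂ) (k : ℕ), (R ᵥ* C) ⬝ᵥ (fun i => (((M ^ k) *ᵥ e) i : ℂ)) =
      s ^ k * ∑ i ∈ Finset.range (p + 4 - k), ex R i * ex v (i + k) := fun R k => row_val hM R e k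
  have e3 : p + 4 - (p + 3) = 1 := by omega
  have e2 : p + 4 - (p + 2) = 2 := by omega
  have e1 : p + 4 - (p + 1) = 3 := by omega
  have hr3 : ∀ R : Fin (p + 4) → ℂ, (R ᵥ* C) ⬝ᵥ (fun i => (((M ^ (p + 3)) *ᵥ e) i : ℂ)) =
      s ^ (p + 1) * s ^ 2 * (ex R 0 * ex v (p + 3)) := by
    intro R
    rw [hrow, e3, Finset.sum_range_one, zero_add]
    ring
  have hr2 : ∀ R : Fin (p + 4) → ℂ, (R ᵥ* C) ⬝ᵥ (fun i => (((M ^ (p + 2)) *ᵥ e) i : ℂ)) =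
      s ^ (p + 1) * s * (ex R 0 * ex v (p + 2) + ex R 1 * ex v (p + 3)) := by
    intro R
    rw [hrow, e2, Finset.sum_range_succ, Finset.sum_range_one, zero_add, show 1 + (p + 2) = p + 3 by omega]
    ring
  have hr1 : ∀ R : Fin (p + 4) → ℂ, (R ᵥ* C) ⬝ᵥ (fun i => (((M ^ (p + 1)) *ᵥ e) i : ℂ)) =
      s ^ (p + 1) * (ex R 0 * ex v (p + 1) + ex R 1 * ex v (p + 2) + ex R 2 * ex v (p + 3)) := by
    intro R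
    rw [hrow, e1, Finset.sum_range_succ, Finset.sum_range_succ, Finset.sum_range_one, zero_add,
      show 1 + (p + 1) = p + 2 by omega, show 2 + (p + 1) = p + 3 by omega]
  have hX : ∀ k, (R0 ᵥ* C) ⬝ᵥ (fun i => (((M ^ k) *ᵥ e) i : ℂ)) =
      c * (((∑ i, x0 i * algebraMap ℚ K (((M ^ k) *ᵥ e) i) : K)) : ℂ) := by
    intro k
    rw [h0]
    exact dot_K K x0 _ c
  have hY : ∀ k, (R1 ᵥ* C) ⬝ᵥ (fun i => (((M ^ k) *ᵥ e) i : ℂ)) =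
      c' * (((∑ i, x0 i * algebraMap ℚ K (((M ^ k) *ᵥ e) i) : K)) : ℂ) +
      c'' * (((∑ i, x1 i * algebraMap ℚ K (((M ^ k) *ᵥ e) i) : K)) : ℂ) := by
    intro k
    rw [h1, ← dot_K K x0 _ c', ← dot_K K x1 _ c'', ← add_dotProduct]
    rfl
  have hj3 := pol_pair hM hP e (p + 3)
  have hj1 := pol_pair hM hP e (p + 1)
  rw [← hv, J_top] at hj3
  rw [← hv, J_sec hQ1] at hj1
  refine core K (Q1 := e ⬝ᵥ (Qb *ᵥ ((M ^ (p + 3)) *ᵥ e))) (Q3 := e ⬝ᵥ (Qb *ᵥ ((M ^ (p + 1)) *ᵥ e)))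
    (s := s) (σ := s ^ (p + 1)) (ε := (-1) ^ (p + 3)) (κ := κ) (c := c) (c' := c') (c'' := c'')
    hs (pow_ne_zero _ hs) he hQ0 (pow_ne_zero _ (by norm_num)) ((hX (p + 3)).symm.trans (hr3 R0))
    ((hX (p + 2)).symm.trans (hr2 R0)) ((hX (p + 1)).symm.trans (hr1 R0)) ((hY (p + 3)).symm.trans (hr3 R1))
    ((hY (p + 2)).symm.trans (hr2 R1)) ((hY (p + 1)).symm.trans (hr1 R1)) ?_ ?_
  · rw [hj3]
    ring
  · rw [hj1]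
    ring

end Pool.Agent.Y118.CM
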