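import Pool.Agent.Y118.CM.One
import Pool.Agent.Y118.CM.Inv

/-!
# The flag of the fibre at `1 / t` is not defined over a number field of small degree
-/

set_option autoImplicit false
set_option maxHeartbeats 400000

open Matrix PowerSeries Pool.Agent.Y113 Pool.Agent.Y120.GF Pool.Agent.Y120.GH Pool.Agent.Y119.HY Pool.Agent.Y119.HZ

namespace Pool.Agent.Y118.CM

variable {p : ℕ} {Q : Polynomial ℚ}

lemma J_zero {i j : Fin (p + 4)} (h : (i : ℕ) + j + 1 < p + 4) : cm (Jm (p + 4) Q) i j = 0 := by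
  rw [cm_apply]
  unfold Jm
  rw [Matrix.of_apply, if_neg (by omega), Rat.cast_zero]

lemma J_ne (hQ0 : Q.coeff 0 ≠ 0) {i j : Fin (p + 4)} (h : (i : ℕ) + j + 1 = p + 4) : cm (Jm (p + 4) Q) i j ≠ 0 := by
  rw [cm_apply]
  unfold Jm
  rw [Matrix.of_apply, if_pos (by omega), h, Nat.sub_self]
  exact Rat.cast_ne_zero.2 (mul_ne_zero (pow_ne_zero _ (by norm_num)) hQ0)

/-- a direction -/
lemma exists_v (hQ0 : Q.coeff 0 ≠ 0) {d d' : Fin (p + 4) → ℂ} (h0 : d 0 ≠ 0) (h1 : d' 0 = 0) (h2 : d' 1 = d 0) :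
    ∃ v : Fin (p + 4) → ℂ, (v ᵥ* cm (Jm (p + 4) Q)) 0 = 0 ∧ (v ᵥ* cm (Jm (p + 4) Q)) 1 = 0 ∧
      (v ᵥ* cm (Jm (p + 4) Q)) 2 ≠ 0 ∧ d ⬝ᵥ v = 1 ∧ d' ⬝ᵥ v ≠ 0 := by
  have v0 : ((0 : Fin (p + 4)) : ℕ) = 0 := rfl
  have v1 : ((1 : Fin (p + 4)) : ℕ) = 1 := rfl
  have v2 : ((2 : Fin (p + 4)) : ℕ) = 2 := rfl
  -- the part without `e_0`
  obtain ⟨v', a0, a1, a2, a3⟩ : ∃ v : Fin (p + 4) → ℂ, (v ᵥ* cm (Jm (p + 4) Q)) 0 = 0 ∧
      (v ᵥ* cm (Jm (p + 4) Q)) 1 = 0 ∧ (v ᵥ* cm (Jm (p + 4) Q)) 2 ≠ 0 ∧ d' ⬝ᵥ v ≠ 0 := by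
    by_cases h : d' ⟨p + 1, by omega⟩ = 0
    · have hp : p ≠ 0 := by
        rintro rfl
        apply h0
        rw [← h2]
        exact h
      refine ⟨Pi.single ⟨p + 1, by omega⟩ 1 + Pi.single 1 1, ?_, ?_, ?_, ?_⟩
      · rw [Matrix.add_vecMul, Matrix.single_one_vecMul, Matrix.single_one_vecMul]
        show cm (Jm (p + 4) Q) _ _ + cm (Jm (p + 4) Q) _ _ = 0
        rw [J_zero (by simp), J_zero (by simp), add_zero]
      · rw [Matrix.add_vecMul, Matrix.single_one_vecMul, Matrix.single_one_vecMul]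
        show cm (Jm (p + 4) Q) _ _ + cm (Jm (p + 4) Q) _ _ = 0
        rw [J_zero (by show p + 1 + 1 + 1 < p + 4; omega), J_zero (by rw [v1]; omega), add_zero]
      · rw [Matrix.add_vecMul, Matrix.single_one_vecMul, Matrix.single_one_vecMul]
        show cm (Jm (p + 4) Q) _ _ + cm (Jm (p + 4) Q) _ _ ≠ 0
        rw [J_zero (i := 1) (j := 2) (by rw [v1, v2]; omega), add_zero]
        exact J_ne hQ0 (by rw [v2])
      · rw [dotProduct_add, dotProduct_single_one, dotProduct_single_one, h, zero_add, h2]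
        exact h0
    · refine ⟨Pi.single ⟨p + 1, by omega⟩ 1, ?_, ?_, ?_, ?_⟩
      · rw [Matrix.single_one_vecMul]
        exact J_zero (by simp)
      · rw [Matrix.single_one_vecMul]
        exact J_zero (by show p + 1 + 1 + 1 < p + 4; omega)
      · rw [Matrix.single_one_vecMul]
        exact J_ne hQ0 (by rw [v2])
      · rw [dotProduct_single_one]
        exact h
  refine ⟨((1 - d ⬝ᵥ v') / d 0) • Pi.single 0 1 + v', ?_, ?_, ?_, ?_, ?_⟩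
  · rw [Matrix.add_vecMul, Matrix.smul_vecMul, Matrix.single_one_vecMul]
    show _ * cm (Jm (p + 4) Q) 0 0 + _ = 0
    rw [a0, J_zero (by rw [v0]; omega), mul_zero, add_zero]
  · rw [Matrix.add_vecMul, Matrix.smul_vecMul, Matrix.single_one_vecMul]
    show _ * cm (Jm (p + 4) Q) 0 1 + _ = 0
    rw [a1, J_zero (by rw [v0, v1]; omega), mul_zero, add_zero]
  · rw [Matrix.add_vecMul, Matrix.smul_vecMul, Matrix.single_one_vecMul]
    show _ * cm (Jm (p + 4) Q) 0 2 + _ ≠ 0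
    rw [J_zero (by rw [v0, v2]; omega), mul_zero, zero_add]
    exact a2
  · rw [dotProduct_add, dotProduct_smul, dotProduct_single_one, smul_eq_mul, div_mul_cancel₀ _ h0]
    ring
  · rw [dotProduct_add, dotProduct_smul, dotProduct_single_one, h1, smul_zero, zero_add]
    exact a3

/-- the four conditions -/
def Bad (q0 q2 β : ℂ) (R0 R1 : Fin (p + 4) → ℂ) : Prop :=
  ex R0 0 = 0 ∨ ex R0 0 * ex R1 1 - ex R0 1 * ex R1 0 = 0 ∨
  ex R0 0 * (ex R0 0 * ex R1 2 - ex R0 2 * ex R1 0) - ex R0 1 * (ex R0 0 * ex R1 1 - ex R0 1 * ex R1 0) = 0 ∨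
  (q0 * (2 * ex R0 0 * ex R0 2 - ex R0 1 ^ 2) - q2 * ex R0 0 ^ 2) * (ex R0 0 * ex R1 1 - ex R0 1 * ex R1 0) ^ 2 =
    β * (ex R0 0 * (ex R0 0 * ex R1 2 - ex R0 2 * ex R1 0) - ex R0 1 * (ex R0 0 * ex R1 1 - ex R0 1 * ex R1 0)) ^ 2

lemma ex_lit (v : Fin (p + 4) → ℂ) : ex v 0 = v 0 ∧ ex v 1 = v 1 ∧ ex v 2 = v 2 :=
  ⟨ex_val v 0, ex_val v 1, ex_val v 2⟩

/-- **a group element where nothing vanishes** -/
theorem exists_g (hQ : QD (p + 4) Q) {d d' : Fin (p + 4) → ℂ} (h0 : d 0 ≠ 0) (h1 : d' 0 = 0) (h2 : d' 1 = d 0)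
    (h3 : d' 2 = d 1) (h4 : (Q.coeff 0 : ℂ) * (2 * d 0 * d 2 - d 1 ^ 2) = (Q.coeff 2 : ℂ) * d 0 ^ 2) (β : ℂ) :
    ∃ g : Matrix (Fin (p + 4)) (Fin (p + 4)) ℂ, g.transpose * cm (Jm (p + 4) Q) * g = cm (Jm (p + 4) Q) ∧
      ¬ Bad (Q.coeff 0 : ℂ) (Q.coeff 2 : ℂ) β (d ᵥ* g) (d' ᵥ* g) := by
  have hQ0 : Q.coeff 0 ≠ 0 := by
    have := hQ.ne 0
    rwa [Nat.cast_zero, ← Polynomial.coeff_zero_eq_eval_zero] at this
  obtain ⟨v, w0, w1, w2, ha, ha'⟩ := exists_v hQ0 h0 h1 h2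
  have hq : (Q.coeff 0 : ℂ) ≠ 0 := Rat.cast_ne_zero.2 hQ0
  set w := v ᵥ* cm (Jm (p + 4) Q) with hw
  set α' := d' ⬝ᵥ v with hα'
  -- the parameter
  obtain ⟨s, hs0, hs⟩ : ∃ s : ℂ, s ≠ 0 ∧ 2 * (Q.coeff 0 : ℂ) * d 0 ≠ β * α' ^ 2 * w 2 * s := by
    have hne : 2 * (Q.coeff 0 : ℂ) * d 0 ≠ 0 := mul_ne_zero (mul_ne_zero two_ne_zero hq) h0
    by_cases h : 2 * (Q.coeff 0 : ℂ) * d 0 = β * α' ^ 2 * w 2 * 1
    · refine ⟨2, two_ne_zero, fun h5 => hne ?_⟩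
      linear_combination 2 * h - h5
    · exact ⟨1, one_ne_zero, h⟩
  have hrow : ∀ y : Fin (p + 4) → ℂ, y ᵥ* tv (cm (Jm (p + 4) Q)) v s = y + (s * (y ⬝ᵥ v)) • w := by
    intro y
    unfold tv
    rw [Matrix.vecMul_add, Matrix.vecMul_one, Matrix.vecMul_smul, Matrix.vecMul_vecMulVec, smul_smul]
  refine ⟨tv (cm (Jm (p + 4) Q)) v s, tv_isom (Jc_skew hQ) v s, ?_⟩
  rw [hrow, hrow, ha, ← hα', mul_one]
  have e0 : ex (d + s • w) 0 = d 0 := by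
    rw [(ex_lit _).1]
    show d 0 + s * w 0 = _
    rw [w0, mul_zero, add_zero]
  have e1 : ex (d + s • w) 1 = d 1 := by
    rw [(ex_lit _).2.1]
    show d 1 + s * w 1 = _
    rw [w1, mul_zero, add_zero]
  have e2 : ex (d + s • w) 2 = d 2 + s * w 2 := (ex_lit _).2.2
  have f0 : ex (d' + (s * α') • w) 0 = 0 := by
    rw [(ex_lit _).1]
    show d' 0 + s * α' * w 0 = _
    rw [w0, mul_zero, add_zero, h1]
  have f1 : ex (d' + (s * α') • w) 1 = d 0 := by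
    rw [(ex_lit _).2.1]
    show d' 1 + s * α' * w 1 = _
    rw [w1, mul_zero, add_zero, h2]
  have f2 : ex (d' + (s * α') • w) 2 = d 1 + s * α' * w 2 := by
    rw [(ex_lit _).2.2]
    show d' 2 + s * α' * w 2 = _
    rw [h3]
  unfold Bad
  rw [e0, e1, e2, f0, f1, f2]
  rintro (h | h | h | h)
  · exact h0 h
  · apply pow_ne_zero 2 h0
    linear_combination h
  · have h5 : s * α' * w 2 * d 0 ^ 2 = 0 := by linear_combination h
    exact mul_ne_zero (mul_ne_zero (mul_ne_zero hs0 ha') w2) (pow_ne_zero 2 h0) h5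
  · have h5 : s * w 2 * d 0 ^ 4 * (2 * (Q.coeff 0 : ℂ) * d 0 - β * α' ^ 2 * w 2 * s) = 0 := by
      linear_combination h - d 0 ^ 4 * h4
    rcases mul_eq_zero.1 h5 with h6 | h6
    · exact mul_ne_zero (mul_ne_zero hs0 w2) (pow_ne_zero 4 h0) h6
    · exact hs (sub_eq_zero.1 h6)

end Pool.Agent.Y118.CM
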