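import Pool.Agent.Y118.CM.Gp

/-!
# The first two steps of the flag are not defined over a number field of bounded degree
-/

set_option autoImplicit false
set_option maxHeartbeats 400000

open Matrix PowerSeries Pool.Agent.Y113 Pool.Agent.Y120.GF Pool.Agent.Y120.GH Pool.Agent.Y119.HY Pool.Agent.Y119.HZ

namespace Pool.Agent.Y118.CM

section deg
variable {σ : Type} {R : Type} [CommRing R]

lemma td_mul {a b : ℕ} {P Q : MvPolynomial σ R} (hP : P.totalDegree ≤ a) (hQ : Q.totalDegree ≤ b) :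
    (P * Q).totalDegree ≤ a + b := (MvPolynomial.totalDegree_mul _ _).trans (Nat.add_le_add hP hQ)

lemma td_sub {a : ℕ} {P Q : MvPolynomial σ R} (hP : P.totalDegree ≤ a) (hQ : Q.totalDegree ≤ a) :
    (P - Q).totalDegree ≤ a := (MvPolynomial.totalDegree_sub _ _).trans (max_le hP hQ)

lemma td_pow {a : ℕ} {P : MvPolynomial σ R} (hP : P.totalDegree ≤ a) (k : ℕ) : (P ^ k).totalDegree ≤ k * a :=
  (MvPolynomial.totalDegree_pow _ _).trans (Nat.mul_le_mul_left _ hP)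

lemma td_C {a : ℕ} {P : MvPolynomial σ R} (hP : P.totalDegree ≤ a) (c : R) : (MvPolynomial.C c * P).totalDegree ≤ a := by
  have h1 := td_mul (a := 0) (P := MvPolynomial.C c) (by rw [MvPolynomial.totalDegree_C]) hP
  rwa [zero_add] at h1

lemma td_le {a b : ℕ} {P : MvPolynomial σ R} (hP : P.totalDegree ≤ a) (h : a ≤ b) : P.totalDegree ≤ b := hP.trans h

end deg

section lin
variable {n : ℕ} {K : IntermediateField ℚ ℂ}

/-- linear forms -/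
noncomputable def aP (K : IntermediateField ℚ ℂ) (d : Fin n → ℚ) (j : Fin n) : MvPolynomial (Fin n × Fin n) K :=
  ∑ k, MvPolynomial.C (algebraMap ℚ K (d k)) * MvPolynomial.X (k, j)

lemma aP_deg (d : Fin n → ℚ) (j : Fin n) : (aP K d j).totalDegree ≤ 1 := by
  unfold aP
  refine MvPolynomial.totalDegree_finsetSum_le fun k _ => ?_
  exact td_C (by rw [MvPolynomial.totalDegree_X]) _

lemma aP_eval (d : Fin n → ℚ) (j : Fin n) (g : Matrix (Fin n) (Fin n) ℂ) :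
    MvPolynomial.aeval (fun x : Fin n × Fin n => g x.1 x.2) (aP K d j) = ((fun k => (d k : ℂ)) ᵥ* g) j := by
  unfold aP
  rw [map_sum]
  show _ = ∑ k, (d k : ℂ) * g k j
  refine Finset.sum_congr rfl fun k _ => ?_
  rw [map_mul, MvPolynomial.aeval_C, MvPolynomial.aeval_X]
  rfl

end lin

variable {p : ℕ} {Q : Polynomial ℚ}

/-- **no flags over number fields of bounded degree** -/
theorem no_flag (hQ : QD (p + 4) Q) (hH : ∀ i j, SDc (Hp (p + 4) Q i j)) {d d' : Fin (p + 4) → ℚ} (h0 : d 0 ≠ 0)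
    (h1 : d' 0 = 0) (h2 : d' 1 = d 0) (h3 : d' 2 = d 1)
    (h4 : Q.coeff 0 * (2 * d 0 * d 2 - d 1 ^ 2) = Q.coeff 2 * d 0 ^ 2) (D : ℕ) : ∃ t0 : ℕ, ∀ t : ℕ, t0 ≤ t →
    ∀ K : IntermediateField ℚ ℂ, FiniteDimensional ℚ K → Module.finrank ℚ K ≤ D → ∀ β : K,
    ¬ Bad (Q.coeff 0 : ℂ) (Q.coeff 2 : ℂ) (β : ℂ) ((fun k => (d k : ℂ)) ᵥ* Hf (Hc (p + 4) Q) (((1 / (t : ℝ) : ℝ)) : ℂ))
      ((fun k => (d' k : ℂ)) ᵥ* Hf (Hc (p + 4) Q) (((1 / (t : ℝ) : ℝ)) : ℂ)) := by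
  obtain ⟨t0, ht0⟩ := one_fibre hQ hH D 6
  refine ⟨t0, fun t ht K hK hKD β hbad => ?_⟩
  have key := ht0 t ht K hK hKD
  set Z := Hf (Hc (p + 4) Q) (((1 / (t : ℝ) : ℝ)) : ℂ) with hZ
  obtain ⟨g, hg, hgb⟩ := exists_g hQ (d := fun k => (d k : ℂ)) (d' := fun k => (d' k : ℂ))
    (by exact_mod_cast h0) (by exact_mod_cast h1) (by exact_mod_cast h2) (by exact_mod_cast h3) (by exact_mod_cast h4) (β : ℂ)
  set a0 := aP K d 0 with ha0
  set a1 := aP K d 1 with ha1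
  set a2 := aP K d 2 with ha2
  set b0 := aP K d' 0 with hb0
  set b1 := aP K d' 1 with hb1
  set b2 := aP K d' 2 with hb2
  have da0 : a0.totalDegree ≤ 1 := aP_deg _ _
  have da1 : a1.totalDegree ≤ 1 := aP_deg _ _
  have da2 : a2.totalDegree ≤ 1 := aP_deg _ _
  have db0 : b0.totalDegree ≤ 1 := aP_deg _ _
  have db1 : b1.totalDegree ≤ 1 := aP_deg _ _
  have db2 : b2.totalDegree ≤ 1 := aP_deg _ _
  set F2 := a0 * b1 - a1 * b0 with hF2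
  set F3 := a0 * (a0 * b2 - a2 * b0) - a1 * F2 with hF3
  set F4 := (MvPolynomial.C (algebraMap ℚ K (Q.coeff 0)) * (MvPolynomial.C 2 * (a0 * a2) - a1 ^ 2) -
    MvPolynomial.C (algebraMap ℚ K (Q.coeff 2)) * a0 ^ 2) * F2 ^ 2 - MvPolynomial.C β * F3 ^ 2 with hF4
  have dF2 : F2.totalDegree ≤ 2 := td_sub (td_mul da0 db1) (td_mul da1 db0)
  have dF3 : F3.totalDegree ≤ 3 := td_sub (td_mul da0 (td_sub (td_mul da0 db2) (td_mul da2 db0))) (td_mul da1 dF2)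
  have dF4 : F4.totalDegree ≤ 6 := by
    refine td_sub (td_mul (a := 2) (b := 4) (td_sub (td_C (td_sub (td_C (td_mul da0 da2) _) (td_pow da1 2)) _)
      (td_C (td_pow da0 2) _)) (td_pow dF2 2)) (td_C (td_pow dF3 2) _)
  -- evaluation
  have ev2 : ∀ h : Matrix (Fin (p + 4)) (Fin (p + 4)) ℂ, MvPolynomial.aeval (fun x : Fin (p + 4) × Fin (p + 4) => h x.1 x.2) F2 =
      ex ((fun k => (d k : ℂ)) ᵥ* h) 0 * ex ((fun k => (d' k : ℂ)) ᵥ* h) 1 -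
        ex ((fun k => (d k : ℂ)) ᵥ* h) 1 * ex ((fun k => (d' k : ℂ)) ᵥ* h) 0 := by
    intro h
    rw [(ex_lit _).1, (ex_lit _).1, (ex_lit _).2.1, (ex_lit _).2.1, hF2, map_sub, map_mul, map_mul, ha0, ha1, hb0, hb1,
      aP_eval, aP_eval, aP_eval, aP_eval]
  have ev3 : ∀ h : Matrix (Fin (p + 4)) (Fin (p + 4)) ℂ, MvPolynomial.aeval (fun x : Fin (p + 4) × Fin (p + 4) => h x.1 x.2) F3 =
      ex ((fun k => (d k : ℂ)) ᵥ* h) 0 * (ex ((fun k => (d k : ℂ)) ᵥ* h) 0 * ex ((fun k => (d' k : ℂ)) ᵥ* h) 2 -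
        ex ((fun k => (d k : ℂ)) ᵥ* h) 2 * ex ((fun k => (d' k : ℂ)) ᵥ* h) 0) - ex ((fun k => (d k : ℂ)) ᵥ* h) 1 *
        (ex ((fun k => (d k : ℂ)) ᵥ* h) 0 * ex ((fun k => (d' k : ℂ)) ᵥ* h) 1 -
        ex ((fun k => (d k : ℂ)) ᵥ* h) 1 * ex ((fun k => (d' k : ℂ)) ᵥ* h) 0) := by
    intro h
    rw [hF3, map_sub, map_mul _ a1, ev2]
    rw [(ex_lit _).1, (ex_lit _).1, (ex_lit _).2.1, (ex_lit _).2.1, (ex_lit _).2.2, (ex_lit _).2.2]
    simp only [map_sub, map_mul, ha0, ha1, ha2, hb0, hb2, aP_eval]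
  have ev4 : ∀ h : Matrix (Fin (p + 4)) (Fin (p + 4)) ℂ, MvPolynomial.aeval (fun x : Fin (p + 4) × Fin (p + 4) => h x.1 x.2) F4 =
      ((Q.coeff 0 : ℂ) * (2 * ex ((fun k => (d k : ℂ)) ᵥ* h) 0 * ex ((fun k => (d k : ℂ)) ᵥ* h) 2 -
        ex ((fun k => (d k : ℂ)) ᵥ* h) 1 ^ 2) - (Q.coeff 2 : ℂ) * ex ((fun k => (d k : ℂ)) ᵥ* h) 0 ^ 2) *
        (ex ((fun k => (d k : ℂ)) ᵥ* h) 0 * ex ((fun k => (d' k : ℂ)) ᵥ* h) 1 -
        ex ((fun k => (d k : ℂ)) ᵥ* h) 1 * ex ((fun k => (d' k : ℂ)) ᵥ* h) 0) ^ 2 -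
      (β : ℂ) * (ex ((fun k => (d k : ℂ)) ᵥ* h) 0 * (ex ((fun k => (d k : ℂ)) ᵥ* h) 0 * ex ((fun k => (d' k : ℂ)) ᵥ* h) 2 -
        ex ((fun k => (d k : ℂ)) ᵥ* h) 2 * ex ((fun k => (d' k : ℂ)) ᵥ* h) 0) - ex ((fun k => (d k : ℂ)) ᵥ* h) 1 *
        (ex ((fun k => (d k : ℂ)) ᵥ* h) 0 * ex ((fun k => (d' k : ℂ)) ᵥ* h) 1 -
        ex ((fun k => (d k : ℂ)) ᵥ* h) 1 * ex ((fun k => (d' k : ℂ)) ᵥ* h) 0)) ^ 2 := by
    intro h
    rw [hF4, map_sub, map_mul _ _ (F2 ^ 2), map_mul _ _ (F3 ^ 2), map_pow _ F2, map_pow _ F3, ev2, ev3]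
    rw [(ex_lit ((fun k => (d k : ℂ)) ᵥ* h)).1, (ex_lit ((fun k => (d k : ℂ)) ᵥ* h)).2.1, (ex_lit ((fun k => (d k : ℂ)) ᵥ* h)).2.2]
    simp only [map_sub, map_mul, map_pow, MvPolynomial.aeval_C, ha0, ha1, ha2, aP_eval]
    have e1 : algebraMap K ℂ (algebraMap ℚ K (Q.coeff 0)) = (Q.coeff 0 : ℂ) := rfl
    have e2 : algebraMap K ℂ (algebraMap ℚ K (Q.coeff 2)) = (Q.coeff 2 : ℂ) := rfl
    have e3 : algebraMap K ℂ β = (β : ℂ) := rfl
    have e4 : algebraMap K ℂ 2 = 2 := map_ofNat _ 2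
    rw [e1, e2, e3, e4]
    ring
  apply hgb
  unfold Bad at hbad ⊢
  rcases hbad with h | h | h | h
  · left
    have h5 := key a0 (da0.trans (by norm_num)) (by
      rw [ha0, aP_eval, ← (ex_lit ((fun k => (d k : ℂ)) ᵥ* Z)).1]
      exact h) g hg
    rw [ha0, aP_eval, ← (ex_lit ((fun k => (d k : ℂ)) ᵥ* g)).1] at h5
    exact h5
  · right; left
    have h5 := key F2 (dF2.trans (by norm_num)) (by rw [ev2]; exact h) g hg
    rw [ev2] at h5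
    exact h5
  · right; right; left
    have h5 := key F3 (dF3.trans (by norm_num)) (by rw [ev3]; exact h) g hg
    rw [ev3] at h5
    exact h5
  · right; right; right
    have h5 := key F4 dF4 (by rw [ev4]; exact sub_eq_zero.2 h) g hg
    rw [ev4] at h5
    exact sub_eq_zero.1 h5

end Pool.Agent.Y118.CM
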