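import Pool.Agent.Y118.UL.Win

/-!
# The windows theorem for G-systems
-/

set_option autoImplicit false
set_option maxHeartbeats 400000

open PowerSeries Pool.Agent.Y113 Pool.Agent.Y120.GF Pool.Agent.Y120.GH

namespace Pool.Agent.Y118.UL

theorem famG {r : ℕ} {h : Fin r → ℚ⟦X⟧} {T : Polynomial ℤ} {A : Fin r → Fin r → Polynomial ℤ} (hT : T ≠ 0)
    (hode : ∀ i, ps T * d⁄dX ℚ (h i) = ∑ j, ps (A i j) * h j)
    {q : ℕ} {C : ℝ} (hG : GSys q C T h)
    (hqu : QU0 T A) :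
    ∃ R : ℕ, ∀ (δ : ℕ) (B₀ : Finset (Fin δ → Option (Fin r))), (fun _ => none) ∈ B₀ →
      (∀ g : (Fin δ → Option (Fin r)) → Polynomial ℚ, ∑ i ∈ B₀, (g i : ℚ⟦X⟧) * yw h i = 0 → ∀ i ∈ B₀, g i = 0) →
      ∃ B : Finset (Fin δ → Option (Fin r)), B₀ ⊆ B ∧
        (∃ C : ℝ, 1 ≤ C ∧ ∀ (b : Fin δ → Option (Fin r)) m, |((coeff m (yw h b : ℚ⟦X⟧) : ℚ) : ℝ)| ≤ C ^ (m + 1)) ∧ ∀ N : ℕ, ∃ E : ℕ, ∀ H t : ℕ, (H + 2) ^ E ≤ t →
        ∀ g : Fin N → ℕ, SepR R g → (∀ l, g l ≤ H) → LinearIndependent ℚ (fun b : Fin N → B × Fin (δ + 1) =>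
          ∏ l, ev (t : ℝ) (Fg (δ + 1) (fun β : B => yw h β.1) (g l) (b l))) := by
  classical
  obtain ⟨Ch, hCh⟩ : ∃ C : ℝ, ∀ i m, |((coeff m (h i) : ℚ) : ℝ)| ≤ C ^ (m + 1) := ⟨C, hG.size⟩
  obtain ⟨e, he, M₀, K, Φ, hΦc, hΦe, hΦd⟩ := hqu
  -- the radii
  set τ : ℝ := |K| + |Ch| + 1 with hτd
  have hτ1 : 1 ≤ τ := by
    have := abs_nonneg K
    have := abs_nonneg Ch
    linarith
  have hτ0 : 0 < τ := by linarith
  have hτe : τ ≤ τ ^ e := le_self_pow₀ hτ1 he
  set τ' : ℝ := τ + 1 with hτ'd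
  have hρρ : τ ^ e < τ' ^ e := pow_lt_pow_left₀ (by linarith) hτ0.le he
  obtain ⟨R, hR⟩ := exists_nat_gt (τ ^ e + τ' ^ e)
  refine ⟨R, fun δ B₀ hb₀ h0 => ?_⟩
  obtain ⟨C', hG'⟩ := gsys_tens (gsys_opt hG) δ
  have hyw : (fun b : Fin δ → Option (Fin r) => ∏ j, (fun o : Option (Fin r) => o.elim 1 h) (b j)) = fun b => yw h b := rfl
  rw [hyw] at hG'
  have hone : yw h (fun _ : Fin δ => none) = 1 := by
    unfold yw
    exact Finset.prod_eq_one fun j _ => rfl
  obtain ⟨B, hBB, hLI, a, M, ha, hM⟩ := max_li' (fun b : Fin δ → Option (Fin r) => yw h b) B₀ h0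
  refine ⟨B, hBB, ⟨C', hG'.one_le, hG'.size⟩, fun N => ?_⟩
  obtain ⟨q', C'', hG''⟩ := gsys_sub hG' (fun β : B => yw h β.1) (fun β => β.1) (fun β => rfl) a M hM
  have hmem1 : ∀ i, cx (h i) ∈ Cw (τ ^ e) := fun i =>
    Cw_mono (by
      have := abs_nonneg K
      linarith) (cx_mem (abs_nonneg Ch) fun m => (hCh i m).trans (by
        rw [← abs_pow]
        exact le_abs_self _))
  have hmem : ∀ b : Fin δ → Option (Fin r), cx (yw h b : ℚ⟦X⟧) ∈ Cw (τ ^ e) := by
    intro b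
    unfold yw
    rw [map_prod]
    refine Subring.prod_mem _ fun j _ => ?_
    rcases b j with _ | i
    · show cx 1 ∈ _
      rw [map_one]
      exact Subring.one_mem _
    · exact hmem1 i
  set Tc : Polynomial ℂ := T.map (Int.castRingHom ℂ) with hTc
  set Ac : Fin r → Fin r → Polynomial ℂ := fun i j => (A i j).map (Int.castRingHom ℂ) with hAc
  have hTc0 : Tc ≠ 0 := (Polynomial.map_ne_zero_iff (Int.castRingHom ℂ).injective_int).2 hT
  have hQU : QU he τ Tc (AT (δ := δ) (A1 Ac)) := by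
    refine qu_tens he δ (qu_one he ⟨M₀, Φ, fun i j k => mem_Cw_of_bound ?_ (hΦc i j k), hΦe, hΦd⟩)
    have := abs_nonneg Ch
    linarith
  -- the differential equation of the products
  have hodeC : ∀ i, (Tc : PowerSeries ℂ) * PowerSeries.derivative ℂ (cx (h i)) = ∑ j, (Ac i j : PowerSeries ℂ) * cx (h j) := by
    intro i
    have h1 := congrArg cx (hode i)
    rw [map_mul, map_sum, cx_der, cx_ps] at h1
    rw [h1]
    refine Finset.sum_congr rfl fun j _ => ?_
    rw [map_mul, cx_ps]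
  have hodeT : ∀ b : Fin δ → Option (Fin r), (Tc : PowerSeries ℂ) * PowerSeries.derivative ℂ (cx (yw h b)) =
      ∑ b', ((AT (δ := δ) (A1 Ac) b b' : Polynomial ℂ) : PowerSeries ℂ) * cx (yw h b') := by
    intro b
    have h1 := tens_der (δ := δ) (fun f : PowerSeries ℂ => PowerSeries.derivative ℂ f) (Derivation.map_one_eq_zero _)
      (fun f g => by
        rw [Derivation.leibniz]
        rfl) (Tc : PowerSeries ℂ) 0
      (fun i l : Option (Fin r) => ((A1 Ac i l : Polynomial ℂ) : PowerSeries ℂ))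
      (fun _ o => cx (o.elim 1 h)) (fun j o => by
        rw [zero_mul, zero_add, Fintype.sum_option]
        rcases o with _ | i
        · show _ * PowerSeries.derivative ℂ (cx 1) = ((0 : Polynomial ℂ) : PowerSeries ℂ) * _ +
            ∑ j, ((0 : Polynomial ℂ) : PowerSeries ℂ) * _
          rw [map_one, Derivation.map_one_eq_zero]
          simp
        · show _ = ((0 : Polynomial ℂ) : PowerSeries ℂ) * _ + ∑ j, (Ac i j : PowerSeries ℂ) * cx (h j)
          rw [← hodeC i]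
          simp) b
    have h2 : ∀ b : Fin δ → Option (Fin r), cx (yw h b) = ∏ j, cx ((b j).elim 1 h) := fun b => map_prod _ _ _
    rw [h2 b]
    refine h1.trans ?_
    rw [mul_zero, zero_mul, zero_add]
    refine Finset.sum_congr rfl fun b' _ => ?_
    rw [h2 b']
    congr 1
    let f : Polynomial ℂ →+ PowerSeries ℂ := (Polynomial.coeToPowerSeries.ringHom (R := ℂ)).toAddMonoidHom
    exact (AT_map f (A1 Ac) b b').symm
  have hdisc : Disc (τ ^ e) (τ' ^ e) fun b : (B : Set (Fin δ → Option (Fin r))) => cx (yw h b.1) :=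
    disc_of_qu he hτ0 (by linarith) (fun b => cx (yw h b)) hmem Tc hTc0 _ hodeT hQU
      (B : Set (Fin δ → Option (Fin r))) (by
      intro G hG
      refine li_cx (κ := (B : Set (Fin δ → Option (Fin r)))) ?_ G hG
      exact hLI)
  obtain ⟨q₀, E₀, hsys⟩ := gsys_Fg hG'' δ
  obtain ⟨c, hc⟩ := Tg_ne (mul_ne_zero ha hT) hG''.degT
  obtain ⟨E, hE⟩ := gsys_shift hG''
  obtain ⟨E₁, hE₁⟩ := liR (F := Fg (δ + 1) (fun β : B => yw h β.1)) (Tg := Pool.Agent.Y120.GH.Tg q' (a * T)) (c := c)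
    (b₀ := ((⟨fun _ => none, hBB hb₀⟩ : B), (0 : Fin (δ + 1)))) (by
      intro g
      show sf g (yw h fun _ : Fin δ => none) * yQ g ((0 : Fin (δ + 1)) : ℕ) = 1
      rw [hone]
      have h1 : sf g 1 = 1 := by
        have := sf_nat g 1
        simpa using this
      rw [h1, one_mul]
      exact yQ_nil g) hsys hc N
  refine ⟨E₁, fun H t hHt g hg hgH => hE₁ H t hHt g hgH ?_⟩
  refine li_shift (ρ := τ ^ e) (ρ' := τ' ^ e) (C := C'') (y := fun β : B => yw h β.1) (by positivity) hρρ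
    (by have := hG''.one_le; linarith) (fun β => hmem _) hdisc hG''.size (fun g => ⟨((g : ℝ) + 2) ^ E, by positivity,
      (hE g).size⟩) hR (δ + 1) N g (fun l => by exact_mod_cast hg.1 l) fun l l' hl => ?_
  rcases hg.2 l l' hl with h1 | h1
  · have h2 : (g l : ℝ) + R ≤ g l' := by exact_mod_cast h1
    rw [abs_sub_comm]
    exact le_trans (by linarith) (le_abs_self _)
  · have h2 : (g l' : ℝ) + R ≤ g l := by exact_mod_cast h1
    exact le_trans (by linarith) (le_abs_self _)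

theorem winG {r : ℕ} {h : Fin r → ℚ⟦X⟧} {T : Polynomial ℤ} {A : Fin r → Fin r → Polynomial ℤ} (hT : T ≠ 0)
    (hode : ∀ i, ps T * d⁄dX ℚ (h i) = ∑ j, ps (A i j) * h j)
    {q' : ℕ} {C' : ℝ} (hG' : GSys q' C' T h)
    (hqu : QU0 T A) :
    ∃ G0 : ℕ, ∀ G : ℕ, G0 ≤ G → ∀ (p : ℕ) (Ω : Fin p → ℂ) (q k D d : ℕ), ∃ E : ℕ, ∀ H t : ℕ, (H + 2) ^ E ≤ t →
      (∀ u ≤ H, G * u < t) ∧ ∀ w : Fin q → ℂ,
      (∃ S : Finset ℕ, (S.card : Cardinal) ≤ Algebra.trdeg ℚ (IntermediateField.adjoin ℚ (Set.range Ω)) + q ∧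
        ∀ u : Fin k → ℕ, Function.Injective u → (∀ j, 1 ≤ u j ∧ u j ≤ H ∧ u j ∉ S) →
        ∀ Y : Set (Fin k × Fin r → ℂ), Irr Y → (∀ y ∈ Y, ∀ j, (fun i => y (j, i)) ∈ Vx h (1 / ((t - G * u j : ℕ) : ℚ))) →
        (fun a => ((ev ((t - G * u a.1 : ℕ) : ℝ) (h a.2) : ℝ) : ℂ)) ∈ Y →
        ∀ K : IntermediateField ℚ ℂ, FiniteDimensional ℚ K → Module.finrank ℚ K ≤ D →
        ∀ P : MvPolynomial ((Fin p ⊕ Fin q) ⊕ Fin k × Fin r) K, P.totalDegree ≤ d →
        MvPolynomial.aeval (Sum.elim (Sum.elim Ω w) fun a : Fin k × Fin r =>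
          ((ev ((t - G * u a.1 : ℕ) : ℝ) (h a.2) : ℝ) : ℂ)) P = 0 →
        ∀ y ∈ Y, MvPolynomial.aeval (Sum.elim (Sum.elim Ω w) y) P = 0) ∧
      (∃ S : Finset ℕ, (S.card : Cardinal) ≤ Algebra.trdeg ℚ (IntermediateField.adjoin ℚ (Set.range Ω)) + q + 1 ∧
        ∀ u : Fin k → ℕ, Function.Injective u → (∀ j, 1 ≤ u j ∧ u j ≤ H ∧ u j ∉ S) →
        ∀ Y : Set (Fin k × Fin r → ℂ), Irr Y → (∀ y ∈ Y, ∀ j, (fun i => y (j, i)) ∈ Vx h (1 / ((t - G * u j : ℕ) : ℚ))) →
        (fun a => ((ev ((t - G * u a.1 : ℕ) : ℝ) (h a.2) : ℝ) : ℂ)) ∈ Y →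
        ∀ K : IntermediateField ℚ ℂ, FiniteDimensional ℚ K → Module.finrank ℚ K ≤ D →
        ∀ P : MvPolynomial ((Fin p ⊕ Fin q) ⊕ Fin k × Option (Fin r)) K, P.totalDegree ≤ d →
        MvPolynomial.aeval (Sum.elim (Sum.elim Ω w) (gl (fun a : Fin k × Fin r =>
          ((ev ((t - G * u a.1 : ℕ) : ℝ) (h a.2) : ℝ) : ℂ)) fun j => ((Real.log (t - G * u j : ℕ) : ℝ) : ℂ))) P = 0 →
        ∀ y ∈ Y, ∀ μ : Fin k → ℂ, MvPolynomial.aeval (Sum.elim (Sum.elim Ω w) (gl y μ)) P = 0) := by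
  classical
  have hsize : ∃ C : ℝ, ∀ i m, |((coeff m (h i) : ℚ) : ℝ)| ≤ C ^ (m + 1) := ⟨C', hG'.size⟩
  obtain ⟨R, hfam⟩ := famG hT hode hG' hqu
  obtain ⟨I, hI, hI2⟩ := exists_free h
  obtain ⟨RR, hRR, hRR2⟩ := exists_R hI2
  refine ⟨R + 1, fun G hG p Ω q k D d => ?_⟩
  have hnr := norel hsize hI hfam (show 1 ≤ G by omega) (show R ≤ G by omega)
  obtain ⟨T0, hT0, hT1⟩ := exists_T Ω
  have key1 := absWin (υ₀ := Fin p) (υ₁ := Fin q) (vl G h) (Option.map (Subtype.val : I → Fin r))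
    (fun t g => 1 / (((t - G * g : ℕ) : ℚ))) RR hRR hnr (small_x G) Ω T0 hT1 k D d
  have key2 := absWin (υ₀ := Fin p) (υ₁ := Option (Fin q)) (vl G h) (Option.map (Subtype.val : I → Fin r))
    (fun t g => 1 / (((t - G * g : ℕ) : ℚ))) RR hRR hnr (small_x G) Ω T0 hT1 k D d
  obtain ⟨E1, hE1⟩ := key1
  obtain ⟨E2, hE2⟩ := key2
  refine ⟨E1 + E2 + (G + 1), fun H t ht => ⟨fun u hu => ?_, fun w => ⟨?_, ?_⟩⟩⟩
  · have h1 : (H + 2) ^ (G + 1) ≤ t := (Nat.pow_le_pow_right (by omega) (by omega)).trans ht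
    have h2 : G + 1 ≤ 2 ^ G := Nat.lt_two_pow_self
    have h3 : 2 ^ G ≤ (H + 2) ^ G := Nat.pow_le_pow_left (by omega) _
    have h4 : (G + 1) * (H + 2) ≤ t := by
      refine le_trans ?_ h1
      rw [pow_succ]
      exact Nat.mul_le_mul_right _ (h2.trans h3)
    have h5 : G * u ≤ G * H := Nat.mul_le_mul_left _ hu
    nlinarith
  · obtain ⟨S, hS, hmain⟩ := hE1 H t ((Nat.pow_le_pow_right (by omega) (by omega)).trans ht) w
    refine ⟨S, ?_, ?_⟩
    · have h1 : (S.card : Cardinal) ≤ ((T0.card + q : ℕ) : Cardinal) := by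
        rw [Fintype.card_fin] at hS
        exact_mod_cast hS
      refine h1.trans ?_
      rw [Nat.cast_add]
      exact add_le_add hT0 le_rfl
    · intro u hu huS Y hY hYV hval K hK1 hK2 P hP hP0 y hy
      set μ : Fin k → ℂ := fun j => ((Real.log (1 - ((G * u j : ℕ) : ℝ) / t) : ℝ) : ℂ) with hμ
      have hv : (fun a : Fin k × Option (Fin r) => vl G h t (u a.1) a.2) =
          gl (fun a : Fin k × Fin r => ((ev ((t - G * u a.1 : ℕ) : ℝ) (h a.2) : ℝ) : ℂ)) μ := by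
        funext a
        obtain ⟨j, _ | i⟩ := a <;> rfl
      have hpoly : ∀ y' : Fin k × Option (Fin r) → ℂ, MvPolynomial.aeval (Sum.elim (Sum.elim Ω w) y')
          (MvPolynomial.rename (Sum.map id fun a : Fin k × Fin r => (a.1, some a.2)) P) =
          MvPolynomial.aeval (Sum.elim (Sum.elim Ω w) fun a : Fin k × Fin r => y' (a.1, some a.2)) P := by
        intro y'
        rw [MvPolynomial.aeval_rename]
        congr 2
        funext a
        rcases a with a | a <;> rfl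
      have h1 := hmain u hu huS {y' | ∃ y ∈ Y, y' = gl y μ} (irr_fix hY μ) ⟨_, hval, hv⟩ (by
        rintro _ ⟨z, hz, rfl⟩ j s
        exact hRR2 _ (fun s => gl z μ (j, s)) (hYV z hz j) s) K hK1 hK2
        (MvPolynomial.rename (Sum.map id fun a : Fin k × Fin r => (a.1, some a.2)) P)
        ((MvPolynomial.totalDegree_rename_le _ _).trans hP) (by
        rw [hpoly]
        exact hP0) (gl y μ) ⟨y, hy, rfl⟩
      rw [hpoly] at h1
      exact h1
  · obtain ⟨S, hS, hmain⟩ := hE2 H t ((Nat.pow_le_pow_right (by omega) (by omega)).trans ht)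
      (fun o => o.elim ((Real.log t : ℝ) : ℂ) w)
    refine ⟨S, ?_, ?_⟩
    · have h1 : (S.card : Cardinal) ≤ ((T0.card + (q + 1) : ℕ) : Cardinal) := by
        rw [Fintype.card_option, Fintype.card_fin] at hS
        exact_mod_cast hS
      refine h1.trans ?_
      rw [Nat.cast_add, Nat.cast_add, Nat.cast_one, ← add_assoc]
      exact add_le_add (add_le_add hT0 le_rfl) le_rfl
    · intro u hu huS Y hY hYV hval K hK1 hK2 P hP hP0 y hy μ
      set μ0 : Fin k → ℂ := fun j => ((Real.log (1 - ((G * u j : ℕ) : ℝ) / t) : ℝ) : ℂ) with hμ0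
      have hv : (fun a : Fin k × Option (Fin r) => vl G h t (u a.1) a.2) =
          gl (fun a : Fin k × Fin r => ((ev ((t - G * u a.1 : ℕ) : ℝ) (h a.2) : ℝ) : ℂ)) μ0 := by
        funext a
        obtain ⟨j, _ | i⟩ := a <;> rfl
      let L : (Fin p ⊕ Fin q) ⊕ Fin k × Option (Fin r) → MvPolynomial ((Fin p ⊕ Option (Fin q)) ⊕ Fin k × Option (Fin r)) K :=
        Sum.elim (Sum.elim (fun i => MvPolynomial.X (Sum.inl (Sum.inl i))) fun i => MvPolynomial.X (Sum.inl (Sum.inr (some i))))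
          fun a => a.2.elim (MvPolynomial.X (Sum.inl (Sum.inr none)) + MvPolynomial.X (Sum.inr (a.1, none)))
            fun i => MvPolynomial.X (Sum.inr (a.1, some i))
      have hL : ∀ i, (L i).totalDegree ≤ 1 := by
        intro i
        rcases i with (i | i) | ⟨j, _ | i⟩
        · exact (MvPolynomial.totalDegree_X _).le
        · exact (MvPolynomial.totalDegree_X _).le
        · refine (MvPolynomial.totalDegree_add _ _).trans ?_
          rw [MvPolynomial.totalDegree_X, MvPolynomial.totalDegree_X, max_self]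
        · exact (MvPolynomial.totalDegree_X _).le
      have hpoly : ∀ (y : Fin k × Fin r → ℂ) (ν : Fin k → ℂ), MvPolynomial.aeval
          (Sum.elim (Sum.elim Ω fun o : Option (Fin q) => o.elim ((Real.log t : ℝ) : ℂ) w) (gl y ν)) (MvPolynomial.aeval L P) =
          MvPolynomial.aeval (Sum.elim (Sum.elim Ω w) (gl y fun j => ((Real.log t : ℝ) : ℂ) + ν j)) P := by
        intro y ν
        have h1 : ((MvPolynomial.aeval (Sum.elim (Sum.elim Ω fun o : Option (Fin q) => o.elim ((Real.log t : ℝ) : ℂ) w)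
            (gl y ν)) : MvPolynomial ((Fin p ⊕ Option (Fin q)) ⊕ Fin k × Option (Fin r)) K →ₐ[K] ℂ)).comp
            (MvPolynomial.aeval L) = MvPolynomial.aeval (Sum.elim (Sum.elim Ω w)
              (gl y fun j => ((Real.log t : ℝ) : ℂ) + ν j)) := by
          refine MvPolynomial.algHom_ext fun i => ?_
          rcases i with (i | i) | ⟨j, _ | i⟩
          · simp [L]
          · simp [L]
          · simp [L, gl]
          · simp [L, gl]
        exact DFunLike.congr_fun h1 P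
      have hlog : ∀ j, ((Real.log t : ℝ) : ℂ) + μ0 j = ((Real.log (t - G * u j : ℕ) : ℝ) : ℂ) := by
        intro j
        have h1 : (H + 2) ^ (G + 1) ≤ t := (Nat.pow_le_pow_right (by omega) (by omega)).trans ht
        have h2 : G + 1 ≤ 2 ^ G := Nat.lt_two_pow_self
        have h3 : 2 ^ G ≤ (H + 2) ^ G := Nat.pow_le_pow_left (by omega) _
        have h4 : (G + 1) * (H + 2) ≤ t := by
          refine le_trans ?_ h1
          rw [pow_succ]
          exact Nat.mul_le_mul_right _ (h2.trans h3)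
        have h5 : G * u j ≤ G * H := Nat.mul_le_mul_left _ (huS j).2.1
        have h6 : G * u j < t := by nlinarith
        have h7 : (0 : ℝ) < t := by
          have : 0 < t := by omega
          exact_mod_cast this
        have h8 : ((G * u j : ℕ) : ℝ) < t := by exact_mod_cast h6
        rw [hμ0]
        simp only
        rw [← Complex.ofReal_add, ← Real.log_mul h7.ne' (by
          rw [sub_ne_zero]
          intro h9
          rw [eq_comm, div_eq_one_iff_eq h7.ne'] at h9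
          linarith)]
        congr 2
        rw [Nat.cast_sub h6.le]
        field_simp
      have h1 := hmain u hu huS {y' | ∃ y ∈ Y, ∃ μ, y' = gl y μ} (irr_free hY) ⟨_, hval, _, hv⟩ (by
        rintro _ ⟨z, hz, ν, rfl⟩ j s
        exact hRR2 _ (fun s => gl z ν (j, s)) (hYV z hz j) s) K hK1 hK2 (MvPolynomial.aeval L P)
        (aeval_deg hP hL) (by
        rw [hv, hpoly]
        simp only [hlog]
        exact hP0) (gl y fun j => μ j - ((Real.log t : ℝ) : ℂ)) ⟨y, hy, _, rfl⟩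
      rw [hpoly] at h1
      have h9 : (fun j => ((Real.log t : ℝ) : ℂ) + (μ j - ((Real.log t : ℝ) : ℂ))) = μ := by
        funext j
        ring
      rw [h9] at h1
      exact h1

end Pool.Agent.Y118.UL
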