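import Pool.Agent.Y118.CM.Sp
import Pool.Agent.Y118.CM.WinG
import Mathlib.RingTheory.AlgebraicIndependent.Transcendental

/-!
# Relations between the values of the hypergeometric functions at `1 / t` for all large `t`
-/

set_option autoImplicit false
set_option maxHeartbeats 400000

open Matrix PowerSeries Pool.Agent.Y113 Pool.Agent.Y120.GF Pool.Agent.Y120.GH Pool.Agent.Y119.HY Pool.Agent.Y119.HZ

namespace Pool.Agent.Y118.CM

variable {n : ℕ} {Q : Polynomial ℚ}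

/-- **All relations of bounded degree over number fields of bounded degree between the entries of the holomorphic part at
`1 / t`, `t` large, hold on the symplectic group.** -/
theorem one_fibre (hQ : QD n Q) (hH : ∀ i j, SDc (Hp n Q i j)) (D d : ℕ) : ∃ t0 : ℕ, ∀ t : ℕ, t0 ≤ t →
    ∀ K : IntermediateField ℚ ℂ, FiniteDimensional ℚ K → Module.finrank ℚ K ≤ D →
    ∀ P : MvPolynomial (Fin n × Fin n) K, P.totalDegree ≤ d →
    MvPolynomial.aeval (fun x => Hf (Hc n Q) (((1 / (t : ℝ) : ℝ)) : ℂ) x.1 x.2) P = 0 →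
    ∀ g : Matrix (Fin n) (Fin n) ℂ, g.transpose * cm (Jm n Q) * g = cm (Jm n Q) →
    MvPolynomial.aeval (fun x => g x.1 x.2) P = 0 := by
  classical
  obtain ⟨D', b, hD, hb⟩ := exists_b n Q
  obtain ⟨q, C, hG⟩ := gsys_Hp hQ hH hb
  have hG' := hG.reindex (ix n)
  have hT : Polynomial.X * T1 D' ≠ 0 := by
    refine mul_ne_zero Polynomial.X_ne_zero (mul_ne_zero (Polynomial.C_ne_zero.2 (by exact_mod_cast hD)) ?_)
    intro h0
    have := congrArg (Polynomial.eval 0) h0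
    simp at this
  have hode : ∀ i : Fin (n * n), ps (Polynomial.X * T1 D') * d⁄dX ℚ (hf n Q i) =
      ∑ j, ps (A2 n D' b (ix n i) (ix n j)) * hf n Q j := by
    intro i
    have h1 := ode_A2 hQ hb (ix n i)
    have h2 : ∑ j : Fin (n * n), ps (A2 n D' b (ix n i) (ix n j)) * hf n Q j =
        ∑ q, ps (A2 n D' b (ix n i) q) * Hp n Q q.1 q.2 :=
      Equiv.sum_comp (ix n) fun q => ps (A2 n D' b (ix n i) q) * Hp n Q q.1 q.2
    exact h1.trans h2.symm
  obtain ⟨G0, hwin⟩ := Pool.Agent.Y118.UL.winG (h := hf n Q) (A := fun a c => A2 n D' b (ix n a) (ix n c)) hT hode hG'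
    (qu_hf hQ hH hb)
  obtain ⟨Ex, hE⟩ := hwin G0 le_rfl 0 Fin.elim0 0 1 D d
  refine ⟨3 ^ Ex + 2, fun t ht K hK hKD P hPd hP0 g hg => ?_⟩
  obtain ⟨-, hw⟩ := hE 1 (t + G0) (by
    show (1 + 2) ^ Ex ≤ t + G0
    have : (1 + 2) ^ Ex = 3 ^ Ex := rfl
    omega)
  obtain ⟨⟨S, hS, hmain⟩, -⟩ := hw Fin.elim0
  have hcard : S.card = 0 := by
    have h1 : (S.card : Cardinal) ≤ 0 := by
      refine hS.trans (le_of_eq ?_)
      rw [Nat.cast_zero, add_zero]
      have h2 : IntermediateField.adjoin ℚ (Set.range (Fin.elim0 : Fin 0 → ℂ)) = ⊥ := by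
        rw [IntermediateField.adjoin_eq_bot_iff]
        rintro _ ⟨i, -⟩
        exact i.elim0
      rw [h2]
      exact trdeg_eq_zero
    have h2 : (S.card : Cardinal) = 0 := le_antisymm h1 bot_le
    exact_mod_cast h2
  have hS0 : S = ∅ := Finset.card_eq_zero.1 hcard
  subst hS0
  have hdet := Jc_det hQ
  have ht1 : 2 ≤ t := le_trans (Nat.le_add_left _ _) ht
  have ht2 : (2 : ℝ) ≤ t := by exact_mod_cast ht1
  have hform : (Hf (Hc n Q) (((1 / (t : ℝ) : ℝ)) : ℂ)).transpose * cm (Jm n Q) * Hf (Hc n Q) (((1 / (t : ℝ) : ℝ)) : ℂ) =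
      cm (Jm n Q) := by
    have h1 := Yt_form hQ ht1
    have hN : cm (Am n) ^ n = 0 := Pool.Agent.Y119.HY.Ac_nil
    have hNJ : (cm (Am n)).transpose * cm (Jm n Q) + cm (Jm n Q) * cm (Am n) = 0 := Pool.Agent.Y119.HY.Jc_rel
    have i2 := E_isom hN hNJ ((Real.log t : ℝ) : ℂ)
    have h3 : Hf (Hc n Q) (((1 / (t : ℝ) : ℝ)) : ℂ) = Yt n Q t * E (cm (Am n)) ((Real.log t : ℝ) : ℂ) := by
      unfold Yt
      have h4 : E (cm (Am n)) (-((Real.log t : ℝ) : ℂ)) * E (cm (Am n)) ((Real.log t : ℝ) : ℂ) = 1 := by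
        have := E_mul_neg hN (-((Real.log t : ℝ) : ℂ))
        rwa [neg_neg] at this
      rw [Matrix.mul_assoc, h4, mul_one]
    rw [h3]
    exact isom_mul h1 i2
  obtain ⟨W, hW1, hW2, hW3⟩ := isom_inv hdet hform
  have htG : ((t + G0 - G0 * 1 : ℕ)) = t := by omega
  set e : Fin 1 × Fin (n * n) → Fin n × Fin n := fun a => ix n a.2 with he
  have hval : (fun a : Fin 1 × Fin (n * n) => ((ev ((t + G0 - G0 * (fun _ : Fin 1 => 1) a.1 : ℕ) : ℝ) (hf n Q a.2) : ℝ) : ℂ)) =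
      fun a => Hf (Hc n Q) (((1 / (t : ℝ) : ℝ)) : ℂ) (e a).1 (e a).2 := by
    funext a
    show ((ev ((t + G0 - G0 * 1 : ℕ) : ℝ) (hf n Q a.2) : ℝ) : ℂ) = _
    rw [htG]
    exact ev_Hp _ _ _
  have hm := hmain (fun _ => 1) (fun i j _ => Subsingleton.elim i j) (fun j => ⟨le_rfl, le_rfl, by simp⟩)
    (Spt (cm (Jm n Q)) e) (sp_irr (Jc_skew hQ) hdet e) (by
      rintro y ⟨g', hg', rfl⟩ j R hR
      show MvPolynomial.eval₂ ((algebraMap ℚ ℂ).comp (Polynomial.evalRingHom (1 / ((t + G0 - G0 * 1 : ℕ) : ℚ))))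
        (fun i => g' (e (j, i)).1 (e (j, i)).2) R = 0
      rw [htG]
      have h3 := rel_inv hQ (R := R) hR (x := 1 / (t : ℝ)) (by positivity) (by rw [div_lt_one (by linarith)]; linarith)
        (isom_mul hW3 hg')
      rw [← Matrix.mul_assoc, hW1, one_mul, ← spec_eq] at h3
      exact h3) (by
      rw [hval]
      exact ⟨_, hform, rfl⟩) K hK hKD
    (MvPolynomial.rename (fun x : Fin n × Fin n => (Sum.inr ((0 : Fin 1), (ix n).symm x) :
      (Fin 0 ⊕ Fin 0) ⊕ Fin 1 × Fin (n * n))) P) ((MvPolynomial.totalDegree_rename_le _ _).trans hPd) (by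
      rw [MvPolynomial.aeval_rename, ← hP0, hval]
      refine congrArg (fun z => MvPolynomial.aeval z P) (funext fun x => ?_)
      show Hf (Hc n Q) (((1 / (t : ℝ) : ℝ)) : ℂ) (ix n ((ix n).symm x)).1 (ix n ((ix n).symm x)).2 = _
      rw [Equiv.apply_symm_apply]) (fun a => g (e a).1 (e a).2) ⟨g, hg, rfl⟩
  rw [MvPolynomial.aeval_rename] at hm
  rw [← hm]
  refine congrArg (fun z => MvPolynomial.aeval z P) (funext fun x => ?_)
  show _ = g (ix n ((ix n).symm x)).1 (ix n ((ix n).symm x)).2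
  rw [Equiv.apply_symm_apply]

end Pool.Agent.Y118.CM
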