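import Pool.Agent.Y119.HY.Fin2
import Pool.Agent.Y118.UL.Irr

/-!
# The symplectic group is irreducible
-/

set_option autoImplicit false
set_option maxHeartbeats 400000

open Matrix Pool.Agent.Y119.HY Pool.Agent.Y119.HZ

namespace Pool.Agent.Y118.CM

variable {n : ℕ}

/-- evaluation of matrices of polynomials -/
lemma map_mul' (X Y : Matrix (Fin n) (Fin n) (Polynomial ℂ)) (c : ℂ) : (X * Y).map (Polynomial.eval c) =
    X.map (Polynomial.eval c) * Y.map (Polynomial.eval c) := map_mul_eval X Y c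

lemma map_one' (c : ℂ) : (1 : Matrix (Fin n) (Fin n) (Polynomial ℂ)).map (Polynomial.eval c) = 1 := by
  ext i j
  rw [Matrix.map_apply, Matrix.one_apply, Matrix.one_apply]
  split_ifs <;> simp

/-- matrices connected with `1` in the isometry group -/
def Pc (J : Matrix (Fin n) (Fin n) ℂ) (g : Matrix (Fin n) (Fin n) ℂ) : Prop :=
  ∃ M : Matrix (Fin n) (Fin n) (Polynomial ℂ), M.map (Polynomial.eval 0) = 1 ∧ M.map (Polynomial.eval 1) = g ∧
    ∀ c, (M.map (Polynomial.eval c)).transpose * J * M.map (Polynomial.eval c) = J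

lemma Pc_one (J : Matrix (Fin n) (Fin n) ℂ) : Pc J 1 :=
  ⟨1, map_one' 0, map_one' 1, fun c => by rw [map_one', transpose_one, one_mul, mul_one]⟩

lemma Pc_mul {J g h : Matrix (Fin n) (Fin n) ℂ} (hg : Pc J g) (hh : Pc J h) : Pc J (g * h) := by
  obtain ⟨M, h1, h2, h3⟩ := hg
  obtain ⟨N, k1, k2, k3⟩ := hh
  refine ⟨M * N, ?_, ?_, fun c => ?_⟩
  · rw [map_mul', h1, k1, one_mul]
  · rw [map_mul', h2, k2]
  · rw [map_mul']
    exact isom_mul (h3 c) (k3 c)

lemma Pc_tv {J : Matrix (Fin n) (Fin n) ℂ} (hJ : J.transpose = -J) (v : Fin n → ℂ) (s : ℂ) : Pc J (tv J v s) := by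
  set M : Matrix (Fin n) (Fin n) (Polynomial ℂ) :=
    1 + (Polynomial.C s * Polynomial.X : Polynomial ℂ) • vecMulVec (fun l => Polynomial.C (v l))
      (fun l => Polynomial.C ((v ᵥ* J) l)) with hM
  have hMe : ∀ c : ℂ, M.map (Polynomial.eval c) = tv J v (s * c) := by
    intro c
    ext l k
    unfold tv
    rw [hM]
    simp only [Matrix.map_apply, Matrix.add_apply, Matrix.smul_apply, smul_eq_mul, vecMulVec_apply,
      Polynomial.eval_add, Polynomial.eval_mul, Polynomial.eval_X, Polynomial.eval_C]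
    congr 1
    rw [Matrix.one_apply, Matrix.one_apply]
    split_ifs <;> simp
  refine ⟨M, ?_, ?_, fun c => ?_⟩
  · rw [hMe, mul_zero]
    unfold tv
    rw [zero_smul, add_zero]
  · rw [hMe, mul_one]
  · rw [hMe]
    exact tv_isom hJ _ _

/-- every isometry is connected with `1` -/
theorem Pc_all {J : Matrix (Fin n) (Fin n) ℂ} (hJ : J.transpose = -J) (hdet : J.det ≠ 0) (g : Matrix (Fin n) (Fin n) ℂ)
    (hg : g.transpose * J * g = J) : Pc J g := by
  set ω : (Fin n → ℂ) →ₗ[ℂ] (Fin n → ℂ) →ₗ[ℂ] ℂ := Matrix.toLinearMap₂' ℂ J with hω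
  have hωa : ∀ u v, ω u v = om J u v := by
    intro u v
    rw [hω, Matrix.toLinearMap₂'_apply']
    rfl
  have h0 : ∀ v, ω v v = 0 := fun v => by rw [hωa, om_self hJ]
  have hnd : ∀ u, (∀ v, ω u v = 0) → u = 0 := by
    intro u hu
    have h1 : ∀ w : Fin n → ℂ, u ⬝ᵥ w = 0 := by
      intro w
      have h2 := hu (J⁻¹ *ᵥ w)
      rw [hωa] at h2
      unfold om at h2
      rw [mulVec_mulVec, mul_nonsing_inv _ (Ne.isUnit hdet), one_mulVec] at h2
      exact h2
    funext i
    have := h1 (Pi.single i 1)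
    rwa [dotProduct_single_one] at this
  have hpres : ∀ u v, ω (Matrix.toLin' g u) (Matrix.toLin' g v) = ω u v := by
    intro u v
    rw [hωa, hωa, toLin'_apply, toLin'_apply]
    unfold om
    rw [mulVec_mulVec, ← vecMul_transpose, ← dotProduct_mulVec, mulVec_mulVec, ← Matrix.mul_assoc, hg]
  have hmem := Pool.Agent.W948.ZC.TR.aux ℂ _ (Fin n → ℂ) ω rfl h0 hnd (Matrix.toLin' g) hpres
  have key : ∀ T ∈ Pool.Agent.W948.ZC.TR.G ω, Pc J (LinearMap.toMatrix' T) := by
    intro T hT
    unfold Pool.Agent.W948.ZC.TR.G at hT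
    induction hT using Submonoid.closure_induction with
    | mem T h =>
      obtain ⟨c, u, rfl⟩ := h
      have h1 : LinearMap.toMatrix' (1 + c • (ω u).smulRight u) = tv J u c := by
        apply (Matrix.toLin'.injective)
        rw [toLin'_toMatrix']
        ext x i
        have h2 : (Matrix.toLin' (tv J u c)) (Pi.single x 1) = tv J u c *ᵥ (Pi.single x 1) := rfl
        rw [LinearMap.comp_apply, LinearMap.comp_apply, LinearMap.single_apply, h2, tv_mulVec, ← hωa]
        simp [LinearMap.add_apply, mul_assoc]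
      rw [h1]
      exact Pc_tv hJ _ _
    | one =>
      have : LinearMap.toMatrix' (1 : Module.End ℂ (Fin n → ℂ)) = 1 := LinearMap.toMatrix'_id
      rw [this]
      exact Pc_one J
    | mul A B _ _ hA hB =>
      have : LinearMap.toMatrix' (A * B) = LinearMap.toMatrix' A * LinearMap.toMatrix' B :=
        LinearMap.toMatrix'_mul A B
      rw [this]
      exact Pc_mul hA hB
  have := key _ hmem
  rwa [LinearMap.toMatrix'_toLin'] at this

/-- the isometry group as a set of points -/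
def Spt {ι : Type} (J : Matrix (Fin n) (Fin n) ℂ) (e : ι → Fin n × Fin n) : Set (ι → ℂ) :=
  {y | ∃ g : Matrix (Fin n) (Fin n) ℂ, g.transpose * J * g = J ∧ y = fun a => g (e a).1 (e a).2}

/-- **irreducibility** -/
theorem sp_irr {ι : Type} {J : Matrix (Fin n) (Fin n) ℂ} (hJ : J.transpose = -J) (hdet : J.det ≠ 0) (e : ι → Fin n × Fin n) :
    Pool.Agent.Y118.UL.Irr (Spt J e) := by
  intro P Q h
  by_contra hcon
  push Not at hcon
  obtain ⟨⟨_, ⟨g1, hg1, rfl⟩, h1⟩, ⟨_, ⟨g2, hg2, rfl⟩, h2⟩⟩ := hcon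
  obtain ⟨W, hW1, hW2, hW3⟩ := isom_inv hdet hg1
  obtain ⟨M, hM0, hM1, hM⟩ := Pc_all hJ hdet (W * g2) (isom_mul hW3 hg2)
  set N : Matrix (Fin n) (Fin n) (Polynomial ℂ) := g1.map Polynomial.C * M with hN
  have hNe : ∀ c, N.map (Polynomial.eval c) = g1 * M.map (Polynomial.eval c) := by
    intro c
    rw [hN, map_mul', map_C_eval]
  have hev : ∀ (R : MvPolynomial ι ℂ) (c : ℂ), Polynomial.eval c (MvPolynomial.aeval (fun a => N (e a).1 (e a).2) R) =
      MvPolynomial.eval (fun a => (g1 * M.map (Polynomial.eval c)) (e a).1 (e a).2) R := by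
    intro R c
    have h3 : (Polynomial.aeval c : Polynomial ℂ →ₐ[ℂ] ℂ).comp (MvPolynomial.aeval (fun a => N (e a).1 (e a).2)) =
        MvPolynomial.aeval (fun a => (g1 * M.map (Polynomial.eval c)) (e a).1 (e a).2) := by
      refine MvPolynomial.algHom_ext fun a => ?_
      rw [AlgHom.comp_apply, MvPolynomial.aeval_X, MvPolynomial.aeval_X, ← hNe]
      rfl
    exact DFunLike.congr_fun h3 R
  set p := MvPolynomial.aeval (fun a => N (e a).1 (e a).2) P with hp
  set q := MvPolynomial.aeval (fun a => N (e a).1 (e a).2) Q with hq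
  have hp0 : p ≠ 0 := by
    intro h0
    apply h1
    have h3 := hev P 0
    rw [← hp, h0, Polynomial.eval_zero, hM0, mul_one] at h3
    exact h3.symm
  have hq0 : q ≠ 0 := by
    intro h0
    apply h2
    have h3 := hev Q 1
    rw [← hq, h0, Polynomial.eval_zero, hM1, ← Matrix.mul_assoc, hW1, one_mul] at h3
    exact h3.symm
  obtain ⟨s, hs⟩ := Infinite.exists_notMem_finset (p * q).roots.toFinset
  have h3 : (p * q).eval s ≠ 0 := by
    intro h3
    exact hs (Multiset.mem_toFinset.2 ((Polynomial.mem_roots (mul_ne_zero hp0 hq0)).2 h3))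
  rw [Polynomial.eval_mul, hev, hev] at h3
  exact h3 (h _ ⟨g1 * M.map (Polynomial.eval s), isom_mul hg1 (hM s), rfl⟩)

end Pool.Agent.Y118.CM
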